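import Mathlib
import Pool.Agent.H23.Retract2

/-!
# Dyadic splitting on `ℓ₁` and the absence of separated trees in `ℓ₁`

Written by helper23.
-/

open Set Filter Topology Metric
open scoped NNReal ENNReal

namespace Pool.Agent.H36.MR

open Pool.Agent.H23 Pool.Agent.H23.Ell1

theorem hasSum_split {f : ℕ → ℝ} {s : ℝ} (hf : HasSum f s) :
    HasSum (fun i => f (i / 2) / 2) s := by
  have h1 : HasSum (fun k => f (2 * k / 2) / 2) (s / 2) := by
    have : (fun k : ℕ => f (2 * k / 2) / 2) = fun k => f k / 2 := by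
      funext k
      rw [Nat.mul_div_cancel_left k (by norm_num)]
    rw [this]
    exact hf.div_const 2
  have h2 : HasSum (fun k => f ((2 * k + 1) / 2) / 2) (s / 2) := by
    have : (fun k : ℕ => f ((2 * k + 1) / 2) / 2) = fun k => f k / 2 := by
      funext k
      congr 2
      omega
    rw [this]
    exact hf.div_const 2
  have h3 := HasSum.even_add_odd (f := fun i => f (i / 2) / 2) h1 h2
  rwa [add_halves] at h3

theorem hasSum_norm (a : Ell1) : HasSum (fun i => ‖a i‖) ‖a‖ := by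
  rw [norm_eq a]
  exact (summable a).hasSum

/-- Splitting every atom into two halves. -/
noncomputable def split : Ell1 →ₗᵢ[ℝ] Ell1 where
  toFun := fun a => ⟨fun i => a (i / 2) / 2, by
    apply memℓp_gen
    simp only [ENNReal.toReal_one, Real.rpow_one, norm_div]
    have := (hasSum_split (hasSum_norm a)).summable
    simpa using this⟩
  map_add' := by
    intro a b
    ext i
    show (a + b) (i / 2) / 2 = a (i / 2) / 2 + b (i / 2) / 2
    rw [lp.coeFn_add, Pi.add_apply, add_div]
  map_smul' := by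
    intro c a
    ext i
    show (c • a) (i / 2) / 2 = c • (a (i / 2) / 2)
    rw [lp.coeFn_smul, Pi.smul_apply, smul_eq_mul, smul_eq_mul, mul_div_assoc]
  norm_map' := by
    intro a
    rw [norm_eq]
    have h := (hasSum_split (hasSum_norm a)).tsum_eq
    rw [← h]
    congr 1
    funext i
    show ‖a (i / 2) / 2‖ = ‖a (i / 2)‖ / 2
    rw [norm_div]
    simp

theorem split_apply (a : Ell1) (i : ℕ) : split a i = a (i / 2) / 2 := rfl

theorem abs_split_iterate_le (a : Ell1) (ha : ∀ i, |a i| ≤ 1) (r i : ℕ) :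
    |(split^[r] a) i| ≤ (1 / 2) ^ r := by
  induction r generalizing i with
  | zero => simpa using ha i
  | succ r ih =>
    rw [Function.iterate_succ_apply', split_apply, abs_div, pow_succ]
    have := ih (i / 2)
    rw [abs_of_pos (by norm_num : (0 : ℝ) < 2)]
    linarith

theorem e_apply_self (k : ℕ) : e k k = 1 :=
  lp.single_apply_self (E := fun _ : ℕ => ℝ) 1 k (1 : ℝ)

theorem e_apply_ne {k i : ℕ} (h : i ≠ k) : e k i = 0 :=
  lp.single_apply_ne (E := fun _ : ℕ => ℝ) 1 k (1 : ℝ) h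

theorem abs_e_le (k i : ℕ) : |e k i| ≤ 1 := by
  by_cases h : i = k
  · rw [h, e_apply_self]; simp
  · rw [e_apply_ne h]; simp

theorem norm_e (k : ℕ) : ‖e k‖ = 1 := by
  unfold e
  rw [lp.norm_single (by simp)]
  simp

theorem split_e (k : ℕ) : split (e k) = (1 / 2 : ℝ) • (e (2 * k) + e (2 * k + 1)) := by
  ext i
  rw [split_apply, lp.coeFn_smul, Pi.smul_apply, lp.coeFn_add, Pi.add_apply, smul_eq_mul]
  by_cases h0 : i = 2 * k
  · subst h0
    rw [Nat.mul_div_cancel_left k (by norm_num), e_apply_self, e_apply_self,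
      e_apply_ne (by omega)]
    norm_num
  · by_cases h1 : i = 2 * k + 1
    · subst h1
      have : (2 * k + 1) / 2 = k := by omega
      rw [this, e_apply_self, e_apply_self, e_apply_ne (by omega)]
      norm_num
    · rw [e_apply_ne h0, e_apply_ne h1, e_apply_ne (by omega)]
      norm_num

theorem half_le_norm_sub (k k' r : ℕ) (hr : 1 ≤ r) : 1 / 2 ≤ ‖e k' - split^[r] (e k)‖ := by
  have h1 := lp.norm_apply_le_norm (p := 1) (by simp) (e k' - split^[r] (e k)) k'
  rw [lp.coeFn_sub, Pi.sub_apply, e_apply_self, Real.norm_eq_abs] at h1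
  have h2 := abs_split_iterate_le (e k) (abs_e_le k) r k'
  have h3 : ((1 : ℝ) / 2) ^ r ≤ 1 / 2 := by
    calc ((1 : ℝ) / 2) ^ r ≤ (1 / 2) ^ 1 := pow_le_pow_of_le_one (by norm_num) (by norm_num) hr
      _ = 1 / 2 := by norm_num
  have h4 := abs_le.1 (h2.trans h3)
  have h5 := le_abs_self (1 - (split^[r] (e k)) k')
  linarith [h4.2]

/-- There is no bounded dyadic tree in `ℓ₁` along which the operators stay bounded below. -/
theorem no_tree (T : ℕ → Ell1 → Ell1) (hadd : ∀ n a b, T n (a + b) = T n a + T n b)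
    (hsmul : ∀ n (c : ℝ) a, T n (c • a) = c • T n a)
    (hT : ∀ n a, T n a = T (n + 1) (split a)) {C c : ℝ} (hc : 0 < c)
    (hC : ∀ n a, ‖T n a‖ ≤ C * ‖a‖) (hlow : ∀ n a, c * ‖a‖ ≤ ‖T n a‖) : False := by
  have hTr : ∀ n r a, T n a = T (n + r) (split^[r] a) := by
    intro n r a
    induction r with
    | zero => rfl
    | succ r ih => rw [ih, hT, Function.iterate_succ_apply']; rfl
  have hsub : ∀ n a b, T n (a - b) = T n a - T n b := by
    intro n a b
    have h1 : a - b = a + (-1 : ℝ) • b := by module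
    rw [h1, hadd, hsmul]
    module
  have hbdd : BddAbove (range fun q : ℕ × ℕ => ‖T q.1 (e q.2)‖) := by
    refine ⟨C, ?_⟩
    rintro _ ⟨q, rfl⟩
    have := hC q.1 (e q.2)
    rwa [norm_e, mul_one] at this
  set S : ℝ := ⨆ q : ℕ × ℕ, ‖T q.1 (e q.2)‖ with hS
  have hSle : ∀ n k, ‖T n (e k)‖ ≤ S := fun n k => le_ciSup hbdd (n, k)
  have hε : 0 < c / 16 := by positivity
  obtain ⟨⟨n₀, k₀⟩, hq⟩ := exists_lt_of_lt_ciSup (show S - c / 16 < S by linarith)
  simp only at hq
  -- the finite set of coordinates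
  obtain ⟨s, hs⟩ : ∃ s : Finset ℕ, ‖T n₀ (e k₀)‖ - c / 16 < ∑ i ∈ s, ‖T n₀ (e k₀) i‖ := by
    have h1 : Tendsto (fun s : Finset ℕ => ∑ i ∈ s, ‖T n₀ (e k₀) i‖) atTop
        (𝓝 ‖T n₀ (e k₀)‖) := hasSum_norm (T n₀ (e k₀))
    exact (h1.eventually (lt_mem_nhds (by linarith))).exists
  let P : Ell1 → ℝ := fun x => ∑ i ∈ s, ‖x i‖
  have hstep : ∀ n k, ∃ k', P (T n (e k)) ≤ P (T (n + 1) (e k')) := by
    intro n k
    by_contra hcon
    push Not at hcon
    have h1 := hcon (2 * k)
    have h2 := hcon (2 * k + 1)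
    have h3 : T n (e k) = (1 / 2 : ℝ) • (T (n + 1) (e (2 * k)) + T (n + 1) (e (2 * k + 1))) := by
      rw [hT, split_e, hsmul, hadd]
    have h4 : P (T n (e k)) ≤
        (1 / 2) * (P (T (n + 1) (e (2 * k))) + P (T (n + 1) (e (2 * k + 1)))) := by
      simp only [P]
      rw [← Finset.sum_add_distrib, Finset.mul_sum]
      refine Finset.sum_le_sum fun i _ => ?_
      rw [h3, lp.coeFn_smul, Pi.smul_apply, lp.coeFn_add, Pi.add_apply, norm_smul]
      have h5 : ‖(1 / 2 : ℝ)‖ = 1 / 2 := by norm_num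
      rw [h5]
      gcongr
      exact norm_add_le _ _
    linarith
  choose nxt hnxt using hstep
  let κ : ℕ → ℕ := fun m => Nat.rec k₀ (fun m k => nxt (n₀ + m) k) m
  have hκ0 : κ 0 = k₀ := rfl
  have hκs : ∀ m, κ (m + 1) = nxt (n₀ + m) (κ m) := fun m => rfl
  let u : ℕ → Ell1 := fun m => T (n₀ + m) (e (κ m))
  have hPu : ∀ m, ‖T n₀ (e k₀)‖ - c / 16 < P (u m) := by
    intro m
    induction m with
    | zero => exact hs
    | succ m ih =>
      refine ih.trans_le ?_
      show P (T (n₀ + m) (e (κ m))) ≤ P (T (n₀ + (m + 1)) (e (κ (m + 1))))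
      rw [hκs]
      exact hnxt (n₀ + m) (κ m)
  have htail : ∀ m, ‖u m‖ - P (u m) ≤ c / 8 := by
    intro m
    have h1 := hSle (n₀ + m) (κ m)
    have h2 := hPu m
    have h3 : ‖u m‖ ≤ S := h1
    linarith
  -- separation
  have hsep : ∀ m m', m < m' → c / 2 ≤ ‖u m' - u m‖ := by
    intro m m' hmm
    obtain ⟨r, rfl⟩ := Nat.exists_eq_add_of_lt hmm
    have h1 : u m = T (n₀ + (m + r + 1)) (split^[r + 1] (e (κ m))) := by
      show T (n₀ + m) (e (κ m)) = _
      have h0 : n₀ + m + (r + 1) = n₀ + (m + r + 1) := by ring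
      rw [hTr (n₀ + m) (r + 1), h0]
    have h2 : u (m + r + 1) - u m = T (n₀ + (m + r + 1))
        (e (κ (m + r + 1)) - split^[r + 1] (e (κ m))) := by
      rw [h1, hsub]
    rw [h2]
    refine le_trans ?_ (hlow _ _)
    have h3 := half_le_norm_sub (κ m) (κ (m + r + 1)) (r + 1) (by omega)
    calc c / 2 = c * (1 / 2) := by ring
      _ ≤ _ := by gcongr
  have hsepP : ∀ m m', m < m' → c / 4 ≤ P (u m' - u m) := by
    intro m m' hmm
    have h1 := hsep m m' hmm
    have h2 := htail m
    have h3 := htail m'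
    -- tails
    have h4 : ‖u m' - u m‖ ≤ P (u m' - u m) + (‖u m'‖ - P (u m')) + (‖u m‖ - P (u m)) := by
      have t : ∀ x : Ell1, HasSum (fun i => if i ∈ s then 0 else ‖x i‖) (‖x‖ - P x) := by
        intro x
        have t1 : HasSum (fun i => if i ∈ s then ‖x i‖ else 0) (P x) := by
          have t2 : HasSum (fun i => if i ∈ s then ‖x i‖ else 0)
              (∑ i ∈ s, (if i ∈ s then ‖x i‖ else 0)) :=
            hasSum_sum_of_ne_finset_zero (fun i hi => if_neg hi)
          have t3 : ∑ i ∈ s, (if i ∈ s then ‖x i‖ else 0) = P x :=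
            Finset.sum_congr rfl fun i hi => if_pos hi
          rwa [t3] at t2
        have t4 := (hasSum_norm x).sub t1
        have t8 : (fun i => if i ∈ s then 0 else ‖x i‖) =
            fun i => ‖x i‖ - if i ∈ s then ‖x i‖ else 0 := by
          funext i
          split_ifs <;> simp
        rw [t8]
        exact t4
      have t5 := t (u m' - u m)
      have t6 := (t (u m')).add (t (u m))
      have t7 := hasSum_le (fun i => ?_) t5 t6
      · linarith
      · split_ifs
        · simp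
        · rw [lp.coeFn_sub, Pi.sub_apply]
          exact norm_sub_le _ _
    linarith
  -- compactness
  let v : ℕ → (s → ℝ) := fun m i => u m i
  have hv : ∀ m, v m ∈ closedBall (0 : s → ℝ) C := by
    intro m
    have hC0 : 0 ≤ C := by
      have h1 := (norm_nonneg _).trans (hC n₀ (e k₀))
      rwa [norm_e, mul_one] at h1
    rw [mem_closedBall_zero_iff, pi_norm_le_iff_of_nonneg hC0]
    intro i
    have h1 := lp.norm_apply_le_norm (p := 1) (by simp) (u m) i
    have h2 := hC (n₀ + m) (e (κ m))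
    rw [norm_e, mul_one] at h2
    exact h1.trans h2
  obtain ⟨w, -, φ, hφ, hlim⟩ := (isCompact_closedBall (0 : s → ℝ) C).tendsto_subseq hv
  have hcau := hlim.cauchySeq
  rw [Metric.cauchySeq_iff] at hcau
  have hcard : (0 : ℝ) < (s.card : ℝ) + 1 := Nat.cast_add_one_pos _
  have hδ : (0 : ℝ) < c / 4 / (s.card + 1) := div_pos (by linarith) hcard
  obtain ⟨N, hN⟩ := hcau _ hδ
  have h1 := hN (N + 1) (Nat.le_succ N) N le_rfl
  have h2 := hsepP (φ N) (φ (N + 1)) (hφ (Nat.lt_succ_self N))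
  have h3 : P (u (φ (N + 1)) - u (φ N)) ≤ s.card * dist (v (φ (N + 1))) (v (φ N)) := by
    simp only [P]
    rw [← nsmul_eq_mul]
    refine Finset.sum_le_card_nsmul s _ _ fun i hi => ?_
    have h4 := dist_le_pi_dist (v (φ (N + 1))) (v (φ N)) ⟨i, hi⟩
    rw [dist_eq_norm] at h4
    exact h4
  have h4 : (s.card : ℝ) * dist (v (φ (N + 1))) (v (φ N)) < c / 4 := by
    have h5 : dist (v (φ (N + 1))) (v (φ N)) < c / 4 / (s.card + 1) := h1
    rw [lt_div_iff₀ hcard] at h5
    have h6 := dist_nonneg (x := v (φ (N + 1))) (y := v (φ N))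
    nlinarith
  linarith

end Pool.Agent.H36.MR
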