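import Mathlib
import Pool.Agent.H23.UltraLim
import Pool.Agent.H36.MR.Tree

/-!
# A Lipschitz retract of `ℓ₁` which is not a dual space

The kernel of the natural quotient map from `ℓ₁` onto an inductive limit of copies of `ℓ₁`
(an `L₁` space).  The retraction and the separation argument are due to helper23
(`Pool/Agent/H23/Retract2.lean`).
-/

open Set Filter Topology Metric TopologicalSpace NormedSpace
open scoped NNReal ENNReal

namespace Pool.Agent.H36.MR

open Pool.Agent.H23 Pool.Agent.H23.Ell1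

/-- In a space complemented in its bidual, bounded sequences of operators have a linear
generalised limit. -/
theorem exists_generalised_limit {V G : Type*} [NormedAddCommGroup V] [NormedSpace ℝ V]
    [NormedAddCommGroup G] [NormedSpace ℝ G] (B : ℕ → V →L[ℝ] G) {C : ℝ} (_hC : 0 ≤ C)
    (hB : ∀ n v, ‖B n v‖ ≤ C * ‖v‖)
    (P : StrongDual ℝ (StrongDual ℝ G) →L[ℝ] G)
    (hP : ∀ x, P (inclusionInDoubleDual ℝ G x) = x) :
    ∃ W : V →L[ℝ] G, ∀ v g, Tendsto (fun n => B n v) atTop (𝓝 g) → W v = g := by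
  let 𝒰 : Ultrafilter ℕ := hyperfilter ℕ
  have h𝒰 : (𝒰 : Filter ℕ) ≤ atTop := by
    rw [← Nat.cofinite_eq_atTop]
    exact hyperfilter_le_cofinite
  have hb : ∀ (v : V) (φ : StrongDual ℝ G), ∀ᶠ n in (𝒰 : Filter ℕ),
      |φ (B n v)| ≤ C * ‖v‖ * ‖φ‖ := by
    intro v φ
    refine Eventually.of_forall fun n => ?_
    calc |φ (B n v)| = ‖φ (B n v)‖ := rfl
      _ ≤ ‖φ‖ * ‖B n v‖ := φ.le_opNorm _
      _ ≤ ‖φ‖ * (C * ‖v‖) := by gcongr; exact hB n v
      _ = C * ‖v‖ * ‖φ‖ := by ring
  let L : V →ₗ[ℝ] (StrongDual ℝ G) →ₗ[ℝ] ℝ :=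
    LinearMap.mk₂ ℝ (fun (v : V) (φ : StrongDual ℝ G) => ulim 𝒰 (fun n => φ (B n v)))
      (by
        intro v v' φ
        rw [← ulim_add 𝒰 (hb v φ) (hb v' φ)]
        congr 1
        funext n
        rw [map_add, map_add])
      (by
        intro c v φ
        rw [smul_eq_mul, ← ulim_smul 𝒰 c (hb v φ)]
        congr 1
        funext n
        rw [map_smul, map_smul, smul_eq_mul])
      (by
        intro v φ φ'
        rw [← ulim_add 𝒰 (hb v φ) (hb v φ')]
        rfl)
      (by
        intro c v φ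
        rw [smul_eq_mul, ← ulim_smul 𝒰 c (hb v φ)]
        rfl)
  let ζ : V →L[ℝ] StrongDual ℝ (StrongDual ℝ G) := LinearMap.mkContinuous₂ L C (fun v φ => by
    show ‖ulim 𝒰 (fun n => φ (B n v))‖ ≤ C * ‖v‖ * ‖φ‖
    exact abs_ulim_le 𝒰 (hb v φ))
  refine ⟨P.comp ζ, fun v g hg => ?_⟩
  have h1 : ζ v = inclusionInDoubleDual ℝ G g := by
    ext φ
    show ulim 𝒰 (fun n => φ (B n v)) = φ g
    apply ulim_eq
    exact ((φ.continuous.tendsto g).comp hg).mono_left h𝒰
  show P (ζ v) = g
  rw [h1, hP]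

/-- The kernel is not complemented. -/
theorem no_projection (W : SeqSpace Ell1 →L[ℝ] ker split) (hW : ∀ y : ker split, W y.1 = y) :
    False := by
  obtain ⟨F⟩ := nonempty_flatEquiv
  let Q : SeqSpace Ell1 → SeqSpace Ell1 := fun x => x - (W x).1
  have hQadd : ∀ x y, Q (x + y) = Q x + Q y := by
    intro x y
    show (x + y) - (W (x + y)).1 = (x - (W x).1) + (y - (W y).1)
    rw [map_add, Submodule.coe_add]
    abel
  have hQsmul : ∀ (c : ℝ) x, Q (c • x) = c • Q x := by
    intro c x
    show (c • x) - (W (c • x)).1 = c • (x - (W x).1)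
    rw [map_smul, Submodule.coe_smul, smul_sub]
  have hQker : ∀ y ∈ ker split, Q y = 0 := by
    intro y hy
    show y - (W y).1 = 0
    rw [hW ⟨y, hy⟩, sub_self]
  have hQnorm : ∀ x, ‖Q x‖ ≤ (1 + ‖W‖) * ‖x‖ := by
    intro x
    have h1 := norm_sub_le x (W x).1
    have h2 : ‖(W x).1‖ ≤ ‖W‖ * ‖x‖ := W.le_opNorm x
    show ‖x - (W x).1‖ ≤ _
    linarith
  have hQlow : ∀ x, rho split x ≤ ‖Q x‖ := by
    intro x
    have h1 : Q x = x + (-(W x)).1 := by
      show x - (W x).1 = x + -(W x).1
      abel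
    have h2 := rho_le_norm split (Q x)
    rw [h1, rho_add_of_mem split (-(W x)).2, ← h1] at h2
    exact h2
  have hF0 : 0 < ‖(F : Ell1 →L[ℝ] SeqSpace Ell1)‖ + 1 := by positivity
  refine no_tree (fun n a => F.symm (Q (lp.single 1 n a))) ?_ ?_ ?_
    (C := ‖(F.symm : SeqSpace Ell1 →L[ℝ] Ell1)‖ * (1 + ‖W‖))
    (c := (‖(F : Ell1 →L[ℝ] SeqSpace Ell1)‖ + 1)⁻¹) (by positivity) ?_ ?_
  · intro n a b
    rw [lp.single_add, hQadd, map_add]
  · intro n c a
    rw [lp.single_smul, hQsmul, map_smul]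
  · intro n a
    have h1 := hQker _ (single_sub_single_mem split n a)
    have h2 : (lp.single 1 n a : SeqSpace Ell1) =
        ((lp.single 1 n a : SeqSpace Ell1) - lp.single 1 (n + 1) (split a)) +
          lp.single 1 (n + 1) (split a) := by abel
    show F.symm (Q (lp.single 1 n a)) = F.symm (Q (lp.single 1 (n + 1) (split a)))
    rw [h2, hQadd, h1, zero_add]
  · intro n a
    show ‖F.symm (Q (lp.single 1 n a))‖ ≤ _
    have h1 : ‖F.symm (Q (lp.single 1 n a))‖ ≤
        ‖(F.symm : SeqSpace Ell1 →L[ℝ] Ell1)‖ * ‖Q (lp.single 1 n a)‖ :=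
      (F.symm : SeqSpace Ell1 →L[ℝ] Ell1).le_opNorm _
    have h2 := hQnorm (lp.single 1 n a)
    rw [lp.norm_single (by simp)] at h2
    calc _ ≤ ‖(F.symm : SeqSpace Ell1 →L[ℝ] Ell1)‖ * ‖Q (lp.single 1 n a)‖ := h1
      _ ≤ ‖(F.symm : SeqSpace Ell1 →L[ℝ] Ell1)‖ * ((1 + ‖W‖) * ‖a‖) := by gcongr
      _ = _ := by ring
  · intro n a
    show _ ≤ ‖F.symm (Q (lp.single 1 n a))‖
    rw [inv_mul_le_iff₀ hF0]
    have h1 : ‖F (F.symm (Q (lp.single 1 n a)))‖ ≤
        ‖(F : Ell1 →L[ℝ] SeqSpace Ell1)‖ * ‖F.symm (Q (lp.single 1 n a))‖ :=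
      (F : Ell1 →L[ℝ] SeqSpace Ell1).le_opNorm _
    rw [F.apply_symm_apply] at h1
    have h2 := hQlow (lp.single 1 n a)
    rw [rho_single] at h2
    have h3 := norm_nonneg (F.symm (Q (lp.single 1 n a)))
    linarith

/-- The kernel is not complemented in its bidual. -/
theorem ker_not_complemented (P : StrongDual ℝ (StrongDual ℝ (ker split)) →L[ℝ] ker split)
    (hP : ∀ x, P (inclusionInDoubleDual ℝ (ker split) x) = x) : False := by
  obtain ⟨W, hW⟩ := exists_generalised_limit (fun n => appr split n)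
    (C := 3) (by positivity) (norm_appr_le split) P hP
  exact no_projection W fun y => hW y.1 y (tendsto_appr split y)

/-! ### The kernel contains a complemented copy of the whole space -/

section Comp

variable {E : Type*} [NormedAddCommGroup E] [NormedSpace ℝ E] (j : E →ₗᵢ[ℝ] E)

/-- Interlace `d` with the opposite of its image. -/
noncomputable def interFun (d : ℕ → E) : ℕ → E :=
  fun n => if n % 2 = 0 then d (n / 2) else - j (d (n / 2))

theorem interFun_even (d : ℕ → E) (k : ℕ) : interFun j d (2 * k) = d k := by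
  unfold interFun
  rw [if_pos (by omega), Nat.mul_div_cancel_left k (by norm_num)]

theorem interFun_odd (d : ℕ → E) (k : ℕ) : interFun j d (2 * k + 1) = - j (d k) := by
  unfold interFun
  have h : (2 * k + 1) / 2 = k := by omega
  rw [if_neg (by omega), h]

theorem hasSum_interFun (d : SeqSpace E) :
    HasSum (fun n => ‖interFun j d n‖) (‖d‖ + ‖d‖) := by
  have h0 : HasSum (fun k => ‖d k‖) ‖d‖ := by
    rw [Ell1.norm_eq d]
    exact (Ell1.summable d).hasSum
  refine HasSum.even_add_odd ?_ ?_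
  · refine h0.congr_fun ?_
    intro k
    rw [interFun_even]
  · refine h0.congr_fun ?_
    intro k
    rw [interFun_odd, norm_neg, j.norm_map]

theorem psum_inter (d : ℕ → E) (k : ℕ) :
    psum j (interFun j d) (2 * k) = d k ∧ psum j (interFun j d) (2 * k + 1) = 0 := by
  have hodd : ∀ k, psum j (interFun j d) (2 * k) = d k →
      psum j (interFun j d) (2 * k + 1) = 0 := by
    intro k hk
    rw [psum_succ, hk, interFun_odd, add_neg_cancel]
  induction k with
  | zero =>
    have h : psum j (interFun j d) (2 * 0) = d 0 := by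
      show interFun j d (2 * 0) = d 0
      exact interFun_even j d 0
    exact ⟨h, hodd 0 h⟩
  | succ k ih =>
    have h : psum j (interFun j d) (2 * (k + 1)) = d (k + 1) := by
      have e1 : 2 * (k + 1) = 2 * k + 1 + 1 := by ring
      rw [e1, psum_succ, ih.2, map_zero, zero_add, ← e1, interFun_even]
    exact ⟨h, hodd (k + 1) h⟩

/-- The embedding of the whole space into the kernel. -/
noncomputable def inter (d : SeqSpace E) : SeqSpace E :=
  ⟨interFun j d, by
    apply memℓp_gen
    simp only [ENNReal.toReal_one, Real.rpow_one]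
    exact (hasSum_interFun j d).summable⟩

theorem norm_inter (d : SeqSpace E) : ‖inter j d‖ = 2 * ‖d‖ := by
  rw [Ell1.norm_eq, two_mul]
  exact (hasSum_interFun j d).tsum_eq

theorem inter_mem (d : SeqSpace E) : inter j d ∈ ker j := by
  rw [Pool.Agent.H23.mem_ker, tendsto_zero_iff_norm_tendsto_zero]
  have h0 : Tendsto (fun k => ‖d k‖) atTop (𝓝 0) := (Ell1.summable d).tendsto_atTop_zero
  have h1 : Tendsto (fun n : ℕ => ‖d (n / 2)‖) atTop (𝓝 0) :=
    h0.comp (Nat.tendsto_div_const_atTop (by norm_num))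
  refine squeeze_zero (fun n => norm_nonneg _) (fun n => ?_) h1
  show ‖psum j (interFun j d) n‖ ≤ ‖d (n / 2)‖
  rcases Nat.even_or_odd' n with ⟨k, rfl | rfl⟩
  · rw [(psum_inter j d k).1, Nat.mul_div_cancel_left k (by norm_num)]
  · rw [(psum_inter j d k).2, norm_zero]
    exact norm_nonneg _

/-- The embedding of the whole space into the kernel, as a continuous linear map. -/
noncomputable def interL : SeqSpace E →L[ℝ] ker j :=
  LinearMap.mkContinuous
    { toFun := fun d => ⟨inter j d, inter_mem j d⟩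
      map_add' := by
        intro d d'
        apply Subtype.ext
        apply lp.ext
        funext n
        show interFun j (d + d' : SeqSpace E) n = interFun j d n + interFun j d' n
        unfold interFun
        split_ifs
        · rw [lp.coeFn_add, Pi.add_apply]
        · rw [lp.coeFn_add, Pi.add_apply, map_add, neg_add]
      map_smul' := by
        intro c d
        apply Subtype.ext
        apply lp.ext
        funext n
        show interFun j (c • d : SeqSpace E) n = c • interFun j d n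
        unfold interFun
        split_ifs
        · rw [lp.coeFn_smul, Pi.smul_apply]
        · rw [lp.coeFn_smul, Pi.smul_apply, map_smul, smul_neg] } 2 (by
    intro d
    exact le_of_eq (norm_inter j d))

/-- Restriction to the even coordinates. -/
noncomputable def evenL : SeqSpace E →L[ℝ] SeqSpace E :=
  LinearMap.mkContinuous
    { toFun := fun d => ⟨fun k => d (2 * k), by
        apply memℓp_gen
        simp only [ENNReal.toReal_one, Real.rpow_one]
        exact (Ell1.summable d).comp_injective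
          (fun a b h => by simpa using h : Function.Injective fun k : ℕ => 2 * k)⟩
      map_add' := by
        intro d d'
        apply lp.ext
        funext n
        rfl
      map_smul' := by
        intro c d
        apply lp.ext
        funext n
        rfl } 1 (by
    intro d
    rw [one_mul]
    rw [Ell1.norm_eq, Ell1.norm_eq]
    exact tsum_comp_le_tsum_of_inj (Ell1.summable d) (fun _ => norm_nonneg _)
      (fun a b h => by simpa using h : Function.Injective fun k : ℕ => 2 * k))

theorem evenL_interL (d : SeqSpace E) : evenL (interL j d).1 = d := by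
  apply lp.ext
  funext k
  exact interFun_even j d k

end Comp

/-! ### Assembly -/

/-- A dual space is complemented in its bidual. -/
theorem complemented_of_dual {G Z : Type*} [NormedAddCommGroup G] [NormedSpace ℝ G]
    [NormedAddCommGroup Z] [NormedSpace ℝ Z] (e : G ≃L[ℝ] (Z →L[ℝ] ℝ)) :
    ∃ P : StrongDual ℝ (StrongDual ℝ G) →L[ℝ] G,
      ∀ x, P (inclusionInDoubleDual ℝ G x) = x := by
  let φ : Z →L[ℝ] StrongDual ℝ G := (e : G →L[ℝ] (Z →L[ℝ] ℝ)).flip
  let R : StrongDual ℝ (StrongDual ℝ G) →L[ℝ] (Z →L[ℝ] ℝ) :=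
    (ContinuousLinearMap.compL ℝ Z (StrongDual ℝ G) ℝ).flip φ
  refine ⟨(e.symm : (Z →L[ℝ] ℝ) →L[ℝ] G).comp R, fun x => ?_⟩
  show e.symm (R (inclusionInDoubleDual ℝ G x)) = x
  have h : R (inclusionInDoubleDual ℝ G x) = e x := by
    ext z
    rfl
  rw [h, e.symm_apply_apply]

/-- Being complemented in the bidual is invariant under isomorphisms. -/
theorem complemented_congr {G H : Type*} [NormedAddCommGroup G] [NormedSpace ℝ G]
    [NormedAddCommGroup H] [NormedSpace ℝ H] (e : G ≃L[ℝ] H)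
    (P : StrongDual ℝ (StrongDual ℝ G) →L[ℝ] G)
    (hP : ∀ x, P (inclusionInDoubleDual ℝ G x) = x) :
    ∃ P' : StrongDual ℝ (StrongDual ℝ H) →L[ℝ] H,
      ∀ x, P' (inclusionInDoubleDual ℝ H x) = x := by
  let A : StrongDual ℝ G →L[ℝ] StrongDual ℝ H :=
    (ContinuousLinearMap.compL ℝ H G ℝ).flip (e.symm : H →L[ℝ] G)
  let B : StrongDual ℝ (StrongDual ℝ H) →L[ℝ] StrongDual ℝ (StrongDual ℝ G) :=
    (ContinuousLinearMap.compL ℝ (StrongDual ℝ G) (StrongDual ℝ H) ℝ).flip A
  refine ⟨((e : G →L[ℝ] H).comp P).comp B, fun x => ?_⟩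
  show e (P (B (inclusionInDoubleDual ℝ H x))) = x
  have h : B (inclusionInDoubleDual ℝ H x) = inclusionInDoubleDual ℝ G (e.symm x) := by
    ext ψ
    rfl
  rw [h, hP, e.apply_symm_apply]

/-- A Lipschitz retract of `ℓ₁` is a Lipschitz retract of its bidual. -/
theorem bidual_retract {Y : Type*} [NormedAddCommGroup Y] [NormedSpace ℝ Y] (ι : Y →L[ℝ] Ell1)
    {L : ℝ≥0} (r : Ell1 → Y) (hr : LipschitzWith L r) (hι : ∀ y, r (ι y) = y) :
    ∃ (L' : ℝ≥0) (ρ : StrongDual ℝ (StrongDual ℝ Y) → Y), LipschitzWith L' ρ ∧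
      ∀ y : Y, ρ (inclusionInDoubleDual ℝ Y y) = y := by
  let A : StrongDual ℝ Ell1 →L[ℝ] StrongDual ℝ Y :=
    (ContinuousLinearMap.compL ℝ Y Ell1 ℝ).flip ι
  have hB : LipschitzWith ‖A‖₊ (fun ζ : StrongDual ℝ (StrongDual ℝ Y) =>
      proj (ContinuousLinearMap.comp ζ A)) := by
    apply LipschitzWith.of_dist_le_mul
    intro ζ ζ'
    rw [dist_eq_norm, dist_eq_norm, ← map_sub, coe_nnnorm, mul_comm]
    refine (norm_proj_le _).trans ?_
    have h : ContinuousLinearMap.comp ζ A - ContinuousLinearMap.comp ζ' A =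
        ContinuousLinearMap.comp (ζ - ζ') A := by
      ext x
      rfl
    rw [h]
    exact ContinuousLinearMap.opNorm_comp_le _ _
  refine ⟨L * ‖A‖₊, fun ζ => r (proj (ContinuousLinearMap.comp ζ A)), hr.comp hB, fun y => ?_⟩
  show r (proj (ContinuousLinearMap.comp (inclusionInDoubleDual ℝ Y y) A)) = y
  have h : ContinuousLinearMap.comp (inclusionInDoubleDual ℝ Y y) A =
      inclusionInDoubleDual ℝ Ell1 (ι y) := by
    ext ψ
    rfl
  rw [h, proj_inclusion, hι]

/-- The main theorem for the kernel. -/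
theorem exists_maps : ∃ (ι : Pool.Agent.H23.ker split →L[ℝ] Ell1)
    (r : Ell1 → Pool.Agent.H23.ker split) (L : ℝ≥0), LipschitzWith L r ∧ (∀ y, r (ι y) = y) ∧
    ∃ (a : Ell1 →L[ℝ] Pool.Agent.H23.ker split) (b : Pool.Agent.H23.ker split →L[ℝ] Ell1),
      ∀ x, b (a x) = x := by
  obtain ⟨F⟩ := nonempty_flatEquiv
  refine ⟨(F.symm : SeqSpace Ell1 →L[ℝ] Ell1).comp (Pool.Agent.H23.ker split).subtypeL,
    fun x => retrKer split (F x), _,
    (lipschitz_retrKer split).comp (F : Ell1 →L[ℝ] SeqSpace Ell1).lipschitz, fun y => ?_,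
    (interL split).comp (F : Ell1 →L[ℝ] SeqSpace Ell1),
    ((F.symm : SeqSpace Ell1 →L[ℝ] Ell1).comp evenL).comp
        (Pool.Agent.H23.ker split).subtypeL, fun x => ?_⟩
  · show retrKer split (F (F.symm y.1)) = y
    rw [F.apply_symm_apply, retrKer_of_mem]
  · show F.symm (evenL (interL split (F x)).1) = x
    rw [evenL_interL, F.symm_apply_apply]

end Pool.Agent.H36.MR
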