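import Mathlib
import Pool.Agent.H36.MR.Main

/-!
# The dual of the kernel is isomorphic to the dual of `ℓ₁`
-/

open Set Filter Topology Metric TopologicalSpace NormedSpace
open scoped NNReal ENNReal

namespace Pool.Agent.H36.MR

open Pool.Agent.H23 Pool.Agent.H23.Ell1

section Inf

variable {V E F : Type*} [NormedAddCommGroup V] [NormedSpace ℝ V]
  [NormedAddCommGroup E] [NormedSpace ℝ E] [NormedAddCommGroup F] [NormedSpace ℝ F]

/-- Bounded operators into `ℓ_∞`-sums. -/
theorem exists_mkInf (g : V →ₗ[ℝ] (ℕ → E)) (C : ℝ) (hC : ∀ v i, ‖g v i‖ ≤ C * ‖v‖) :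
    ∃ T : V →L[ℝ] lp (fun _ : ℕ => E) ∞, ∀ v i, T v i = g v i := by
  refine ⟨LinearMap.mkContinuous
    { toFun := fun v => ⟨g v, memℓp_infty ⟨C * ‖v‖, by
        rintro _ ⟨i, rfl⟩
        exact hC v i⟩⟩
      map_add' := by
        intro v w
        apply lp.ext
        funext i
        show g (v + w) i = g v i + g w i
        rw [map_add, Pi.add_apply]
      map_smul' := by
        intro c v
        apply lp.ext
        funext i
        show g (c • v) i = c • g v i
        rw [map_smul, Pi.smul_apply] } (max C 0) (by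
    intro v
    refine lp.norm_le_of_forall_le (by positivity) fun i => ?_
    refine (hC v i).trans ?_
    gcongr
    exact le_max_left _ _), fun _ _ => rfl⟩

/-- If `F` is complemented in `E`, then `ℓ_∞(E) ≅ F × ℓ_∞(E)`. -/
theorem exists_equiv_prod_inf (A : F →L[ℝ] E) (P : E →L[ℝ] F) (hPA : ∀ y, P (A y) = y) :
    Nonempty (lp (fun _ : ℕ => E) ∞ ≃L[ℝ] F × lp (fun _ : ℕ => E) ∞) := by
  let e : E →L[ℝ] E := A.comp P
  let f : E →L[ℝ] E := ContinuousLinearMap.id ℝ E - e
  have he : ∀ x, e x = A (P x) := fun _ => rfl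
  have hf : ∀ x, f x = x - A (P x) := fun _ => rfl
  have hnorm : ∀ (z : lp (fun _ : ℕ => E) ∞) (i : ℕ), ‖z i‖ ≤ ‖z‖ := fun z i =>
    lp.norm_apply_le_norm (by simp) z i
  obtain ⟨T1, hT1⟩ := exists_mkInf (V := lp (fun _ : ℕ => E) ∞) (E := E)
    { toFun := fun x i => e (x (i + 1)) + f (x i)
      map_add' := by
        intro x y
        funext i
        show e ((x + y) (i + 1)) + f ((x + y) i) = (e (x (i + 1)) + f (x i)) +
          (e (y (i + 1)) + f (y i))
        rw [lp.coeFn_add, Pi.add_apply, Pi.add_apply, map_add, map_add]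
        abel
      map_smul' := by
        intro c x
        funext i
        show e ((c • x) (i + 1)) + f ((c • x) i) = c • (e (x (i + 1)) + f (x i))
        rw [lp.coeFn_smul, Pi.smul_apply, Pi.smul_apply, map_smul, map_smul, smul_add] }
    (‖e‖ + ‖f‖) (by
      intro x i
      show ‖e (x (i + 1)) + f (x i)‖ ≤ _
      have h1 := e.le_opNorm_of_le (hnorm x (i + 1))
      have h2 := f.le_opNorm_of_le (hnorm x i)
      have h3 := norm_add_le (e (x (i + 1))) (f (x i))
      rw [add_mul]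
      linarith)
  obtain ⟨T2, hT2⟩ := exists_mkInf (V := F × lp (fun _ : ℕ => E) ∞) (E := E)
    { toFun := fun q i => Nat.casesOn i (A q.1 + f (q.2 0)) (fun j => e (q.2 j) + f (q.2 (j + 1)))
      map_add' := by
        intro x y
        funext i
        rcases i with _ | j
        · show A (x.1 + y.1) + f ((x.2 + y.2 : lp (fun _ : ℕ => E) ∞) 0) =
            (A x.1 + f (x.2 0)) + (A y.1 + f (y.2 0))
          rw [lp.coeFn_add, Pi.add_apply, map_add, map_add]
          abel
        · show e ((x.2 + y.2 : lp (fun _ : ℕ => E) ∞) j) +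
            f ((x.2 + y.2 : lp (fun _ : ℕ => E) ∞) (j + 1)) =
            (e (x.2 j) + f (x.2 (j + 1))) + (e (y.2 j) + f (y.2 (j + 1)))
          rw [lp.coeFn_add, Pi.add_apply, Pi.add_apply, map_add, map_add]
          abel
      map_smul' := by
        intro c x
        funext i
        rcases i with _ | j
        · show A (c • x.1) + f ((c • x.2 : lp (fun _ : ℕ => E) ∞) 0) =
            c • (A x.1 + f (x.2 0))
          rw [lp.coeFn_smul, Pi.smul_apply, map_smul, map_smul, smul_add]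
        · show e ((c • x.2 : lp (fun _ : ℕ => E) ∞) j) +
            f ((c • x.2 : lp (fun _ : ℕ => E) ∞) (j + 1)) =
            c • (e (x.2 j) + f (x.2 (j + 1)))
          rw [lp.coeFn_smul, Pi.smul_apply, Pi.smul_apply, map_smul, map_smul, smul_add] }
    (‖A‖ + ‖e‖ + ‖f‖) (by
      intro q i
      have hq1 : ‖q.1‖ ≤ ‖q‖ := le_max_left _ _
      have hq2 : ‖q.2‖ ≤ ‖q‖ := le_max_right _ _
      rcases i with _ | j
      · show ‖A q.1 + f (q.2 0)‖ ≤ _
        have h1 := A.le_opNorm_of_le hq1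
        have h2 := f.le_opNorm_of_le ((hnorm q.2 0).trans hq2)
        have h3 := norm_add_le (A q.1) (f (q.2 0))
        have h4 : 0 ≤ ‖e‖ * ‖q‖ := by positivity
        rw [add_mul, add_mul]
        linarith
      · show ‖e (q.2 j) + f (q.2 (j + 1))‖ ≤ _
        have h1 := e.le_opNorm_of_le ((hnorm q.2 j).trans hq2)
        have h2 := f.le_opNorm_of_le ((hnorm q.2 (j + 1)).trans hq2)
        have h3 := norm_add_le (e (q.2 j)) (f (q.2 (j + 1)))
        have h4 : 0 ≤ ‖A‖ * ‖q‖ := by positivity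
        rw [add_mul, add_mul]
        linarith)
  obtain ⟨E0, hE0⟩ : ∃ E0 : lp (fun _ : ℕ => E) ∞ →L[ℝ] E, ∀ x, E0 x = x 0 :=
    ⟨LinearMap.mkContinuous
      { toFun := fun x => x 0
        map_add' := fun x y => by rw [lp.coeFn_add, Pi.add_apply]
        map_smul' := fun c x => by rw [lp.coeFn_smul, Pi.smul_apply]; rfl }
      1 (fun x => by
        rw [one_mul]
        exact hnorm x 0), fun _ => rfl⟩
  have hT2z : ∀ (y : F) (z : lp (fun _ : ℕ => E) ∞), T2 (y, z) 0 = A y + f (z 0) := by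
    intro y z
    rw [hT2]
    rfl
  have hT2s : ∀ (y : F) (z : lp (fun _ : ℕ => E) ∞) (i : ℕ),
      T2 (y, z) (i + 1) = e (z i) + f (z (i + 1)) := by
    intro y z i
    rw [hT2]
    rfl
  have hT1' : ∀ (x : lp (fun _ : ℕ => E) ∞) i, T1 x i = e (x (i + 1)) + f (x i) := by
    intro x i
    rw [hT1]
    rfl
  let Θ : lp (fun _ : ℕ => E) ∞ →L[ℝ] F × lp (fun _ : ℕ => E) ∞ := (P.comp E0).prod T1
  have hΘ : ∀ x, Θ x = (P (x 0), T1 x) := by
    intro x
    show (P (E0 x), T1 x) = _
    rw [hE0]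
  refine ⟨ContinuousLinearEquiv.equivOfInverse Θ T2 ?_ ?_⟩
  · intro x
    apply lp.ext
    funext i
    rw [hΘ]
    rcases i with _ | i
    · rw [hT2z, hT1']
      simp only [he, hf, map_add, map_sub, hPA]
      abel
    · rw [hT2s, hT1', hT1']
      simp only [he, hf, map_add, map_sub, hPA]
      abel
  · rintro ⟨y, z⟩
    rw [hΘ]
    apply Prod.ext
    · show P (T2 (y, z) 0) = y
      rw [hT2z]
      simp only [hf, map_add, map_sub, hPA]
      abel
    · show T1 (T2 (y, z)) = z
      apply lp.ext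
      funext i
      rw [hT1', hT2s]
      rcases i with _ | i
      · rw [hT2z]
        simp only [he, hf, map_add, map_sub, hPA]
        abel
      · rw [hT2s]
        simp only [he, hf, map_add, map_sub, hPA]
        abel

/-- Pelczynski's decomposition method for `ℓ_∞`-sums. -/
theorem nonempty_equiv_of_complemented_inf (hX : Nonempty (E ≃L[ℝ] lp (fun _ : ℕ => E) ∞))
    (A : F →L[ℝ] E) (P : E →L[ℝ] F) (hPA : ∀ y, P (A y) = y)
    (B : E →L[ℝ] F) (Q : F →L[ℝ] E) (hQB : ∀ x, Q (B x) = x) : Nonempty (F ≃L[ℝ] E) := by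
  obtain ⟨eX⟩ := hX
  obtain ⟨e1⟩ := exists_equiv_prod_inf A P hPA
  obtain ⟨e2⟩ := exists_equiv_prod_inf (ContinuousLinearMap.id ℝ E)
    (ContinuousLinearMap.id ℝ E) (fun _ => rfl)
  have f1 : E ≃L[ℝ] F × E :=
    eX.trans (e1.trans ((ContinuousLinearEquiv.refl ℝ F).prodCongr eX.symm))
  have f2 : E ≃L[ℝ] E × E :=
    eX.trans (e2.trans ((ContinuousLinearEquiv.refl ℝ E).prodCongr eX.symm))
  have f3 : F ≃L[ℝ] E × LinearMap.ker (Q : F →ₗ[ℝ] E) :=
    ContinuousLinearEquiv.equivOfRightInverse Q B hQB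
  exact ⟨f3.trans ((f2.prodCongr (ContinuousLinearEquiv.refl ℝ _)).trans
    ((ContinuousLinearEquiv.prodAssoc ℝ E E _).trans
      (((ContinuousLinearEquiv.refl ℝ E).prodCongr f3.symm).trans
        ((ContinuousLinearEquiv.prodComm ℝ E F).trans f1.symm))))⟩

/-- The transpose. -/
noncomputable def tr (T : E →L[ℝ] F) : StrongDual ℝ F →L[ℝ] StrongDual ℝ E :=
  (ContinuousLinearMap.compL ℝ E F ℝ).flip T

theorem tr_apply (T : E →L[ℝ] F) (φ : StrongDual ℝ F) (x : E) : tr T φ x = φ (T x) := rfl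

theorem nonempty_tr_equiv (e : E ≃L[ℝ] F) : Nonempty (StrongDual ℝ E ≃L[ℝ] StrongDual ℝ F) := by
  refine ⟨ContinuousLinearEquiv.equivOfInverse (tr (e.symm : F →L[ℝ] E))
    (tr (e : E →L[ℝ] F)) ?_ ?_⟩
  · intro φ
    ext x
    show φ (e.symm (e x)) = φ x
    rw [e.symm_apply_apply]
  · intro φ
    ext x
    show φ (e (e.symm x)) = φ x
    rw [e.apply_symm_apply]

/-- The dual of an `ℓ₁`-sum. -/
theorem nonempty_dual_lp (E : Type*) [NormedAddCommGroup E] [NormedSpace ℝ E] :
    Nonempty (StrongDual ℝ (lp (fun _ : ℕ => E) 1) ≃L[ℝ]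
      lp (fun _ : ℕ => StrongDual ℝ E) ∞) := by
  obtain ⟨T, hT⟩ := exists_mkInf (V := StrongDual ℝ (lp (fun _ : ℕ => E) 1))
    (E := StrongDual ℝ E)
    { toFun := fun φ i => tr (lp.singleContinuousLinearMap ℝ (fun _ : ℕ => E) 1 i) φ
      map_add' := by
        intro φ ψ
        funext i
        rw [map_add, Pi.add_apply]
      map_smul' := by
        intro c φ
        funext i
        rw [map_smul, Pi.smul_apply]
        rfl } 1 (by
      intro φ i
      rw [one_mul]
      refine ContinuousLinearMap.opNorm_le_bound _ (norm_nonneg _) fun x => ?_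
      show ‖φ (lp.single 1 i x)‖ ≤ _
      refine (φ.le_opNorm _).trans (le_of_eq ?_)
      rw [lp.norm_single (by simp)])
  have hTa : ∀ φ i x, T φ i x = φ (lp.single 1 i x) := by
    intro φ i x
    rw [hT]
    rfl
  have hinj : Function.Injective T := by
    intro φ ψ h
    refine lp.ext_continuousLinearMap (by simp) fun n => ?_
    ext x
    show φ (lp.single 1 n x) = ψ (lp.single 1 n x)
    rw [← hTa, ← hTa, h]
  have hsurj : Function.Surjective T := by
    intro ψ
    have hb : ∀ (x : lp (fun _ : ℕ => E) 1) n, ‖ψ n (x n)‖ ≤ ‖ψ‖ * ‖x n‖ := fun x n =>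
      (ψ n).le_of_opNorm_le (lp.norm_apply_le_norm (by simp) ψ n) (x n)
    have hs : ∀ x : lp (fun _ : ℕ => E) 1, Summable fun n => ψ n (x n) := fun x =>
      Summable.of_norm_bounded ((Ell1.summable x).mul_left ‖ψ‖) (hb x)
    let S : StrongDual ℝ (lp (fun _ : ℕ => E) 1) := LinearMap.mkContinuous
      { toFun := fun x => ∑' n, ψ n (x n)
        map_add' := by
          intro x y
          rw [← (hs x).tsum_add (hs y)]
          congr 1
          funext n
          rw [lp.coeFn_add, Pi.add_apply, map_add]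
        map_smul' := by
          intro c x
          rw [RingHom.id_apply, ← (hs x).tsum_const_smul]
          congr 1
          funext n
          rw [lp.coeFn_smul, Pi.smul_apply, map_smul] } ‖ψ‖ (by
      intro x
      rw [Ell1.norm_eq, ← tsum_mul_left]
      exact tsum_of_norm_bounded ((Ell1.summable x).mul_left ‖ψ‖).hasSum (hb x))
    refine ⟨S, ?_⟩
    apply lp.ext
    funext n
    ext x
    rw [hTa]
    show ∑' m, ψ m ((lp.single 1 n x : lp (fun _ : ℕ => E) 1) m) = ψ n x
    rw [tsum_eq_single n, lp.single_apply_self]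
    intro m hm
    rw [lp.single_apply_ne (E := fun _ : ℕ => E) 1 n x hm, map_zero]
  exact exists_equiv_of_bijective T hinj hsurj

theorem nonempty_lp_congr_inf (e : E ≃L[ℝ] F) :
    Nonempty (lp (fun _ : ℕ => E) ∞ ≃L[ℝ] lp (fun _ : ℕ => F) ∞) := by
  refine ⟨ContinuousLinearEquiv.equivOfInverse (mapLp ∞ (e : E →L[ℝ] F))
    (mapLp ∞ (e.symm : F →L[ℝ] E)) ?_ ?_⟩
  · intro x
    apply lp.ext
    funext n
    exact e.symm_apply_apply (x n)
  · intro x
    apply lp.ext
    funext n
    exact e.apply_symm_apply (x n)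

end Inf

/-- The extension operator for functionals. -/
theorem exists_extension {V G : Type*} [NormedAddCommGroup V] [NormedSpace ℝ V]
    [NormedAddCommGroup G] [NormedSpace ℝ G] (B : ℕ → V →L[ℝ] G) {C : ℝ}
    (hB : ∀ n v, ‖B n v‖ ≤ C * ‖v‖) (i : G → V)
    (hi : ∀ y, Tendsto (fun n => B n (i y)) atTop (𝓝 y)) :
    ∃ T : StrongDual ℝ G →L[ℝ] StrongDual ℝ V, ∀ φ y, T φ (i y) = φ y := by
  let 𝒰 : Ultrafilter ℕ := hyperfilter ℕ
  have h𝒰 : (𝒰 : Filter ℕ) ≤ atTop := by
    rw [← Nat.cofinite_eq_atTop]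
    exact hyperfilter_le_cofinite
  have hb : ∀ (φ : StrongDual ℝ G) (v : V),
      ∀ᶠ n in (𝒰 : Filter ℕ), |φ (B n v)| ≤ C * ‖φ‖ * ‖v‖ := by
    intro φ v
    refine Eventually.of_forall fun n => ?_
    calc |φ (B n v)| = ‖φ (B n v)‖ := rfl
      _ ≤ ‖φ‖ * ‖B n v‖ := φ.le_opNorm _
      _ ≤ ‖φ‖ * (C * ‖v‖) := by gcongr; exact hB n v
      _ = C * ‖φ‖ * ‖v‖ := by ring
  let L : StrongDual ℝ G →ₗ[ℝ] V →ₗ[ℝ] ℝ :=
    LinearMap.mk₂ ℝ (fun (φ : StrongDual ℝ G) (v : V) =>
        ulim 𝒰 (fun n => φ (B n v)))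
      (by
        intro φ φ' v
        rw [← ulim_add 𝒰 (hb φ v) (hb φ' v)]
        rfl)
      (by
        intro c φ v
        rw [smul_eq_mul, ← ulim_smul 𝒰 c (hb φ v)]
        rfl)
      (by
        intro φ v v'
        rw [← ulim_add 𝒰 (hb φ v) (hb φ v')]
        congr 1
        funext n
        rw [map_add, map_add])
      (by
        intro c φ v
        rw [smul_eq_mul, ← ulim_smul 𝒰 c (hb φ v)]
        congr 1
        funext n
        rw [map_smul, map_smul, smul_eq_mul])
  have hL : ∀ (φ : StrongDual ℝ G) (v : V), ‖L φ v‖ ≤ C * ‖φ‖ * ‖v‖ :=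
    fun φ v => abs_ulim_le 𝒰 (hb φ v)
  let T : StrongDual ℝ G →L[ℝ] StrongDual ℝ V := L.mkContinuous₂ C hL
  refine ⟨T, fun φ y => ?_⟩
  show ulim 𝒰 (fun n => φ (B n (i y))) = φ y
  apply ulim_eq
  exact ((φ.continuous.tendsto y).comp (hi y)).mono_left h𝒰

/-- The dual of the kernel is isomorphic to the dual of `ℓ₁`. -/
theorem nonempty_dual_ker_equiv :
    Nonempty (StrongDual ℝ (Pool.Agent.H23.ker split) ≃L[ℝ] StrongDual ℝ Ell1) := by
  obtain ⟨F⟩ := nonempty_flatEquiv
  obtain ⟨e1⟩ := nonempty_tr_equiv F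
  -- the dual of the sequence space is an `ℓ_∞`-sum of copies of itself
  obtain ⟨e2⟩ := nonempty_dual_lp Ell1
  obtain ⟨e3⟩ := nonempty_lp_congr_inf e1
  obtain ⟨T, hT⟩ := exists_extension (fun n => appr split n) (C := 3) (norm_appr_le split)
    (fun y => y.1) (tendsto_appr split)
  obtain ⟨e4⟩ := nonempty_equiv_of_complemented_inf
    (E := StrongDual ℝ (SeqSpace Ell1)) (F := StrongDual ℝ (Pool.Agent.H23.ker split))
    ⟨e2.trans e3⟩ T (tr (Pool.Agent.H23.ker split).subtypeL) (fun φ => by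
      ext y
      show T φ y.1 = φ y
      exact hT φ y)
    (tr (evenL.comp (Pool.Agent.H23.ker split).subtypeL)) (tr (interL split)) (fun φ => by
      ext x
      show φ (evenL (interL split x).1) = φ x
      rw [evenL_interL])
  exact ⟨e4.trans e1.symm⟩

end Pool.Agent.H36.MR
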