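import Mathlib
import Pool.Agent.H23.MainThm

/-!
# Lipschitz-free spaces of normed spaces
-/

open Set Filter Topology
open scoped NNReal ENNReal

namespace Pool.Agent.H36.MR

section Defs

variable (X : Type*) [NormedAddCommGroup X]

/-- The `1`-Lipschitz functions on `X` which vanish at `0`. -/
def LipBall : Type _ := {f : X → ℝ // LipschitzWith 1 f ∧ f 0 = 0}

instance : Nonempty (LipBall X) :=
  ⟨⟨fun _ => 0, by exact LipschitzWith.const' 0, rfl⟩⟩

variable {X} in
theorem LipBall.norm_le (f : LipBall X) (x : X) : ‖f.1 x‖ ≤ ‖x‖ := by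
  have h := f.2.1.dist_le_mul x 0
  rwa [f.2.2, dist_zero_right, dist_zero_right, NNReal.coe_one, one_mul] at h

/-- The evaluation at `x`, as a bounded function on `LipBall X`. -/
noncomputable def delta (x : X) : lp (fun _ : LipBall X => ℝ) ∞ :=
  ⟨fun f => f.1 x, memℓp_infty ⟨‖x‖, by
    rintro _ ⟨f, rfl⟩
    exact f.norm_le x⟩⟩

/-- The Lipschitz-free space of `X`: the closed linear span of the evaluations, in the space of
bounded functions on `LipBall X`. -/
noncomputable def LipschitzFree : Submodule ℝ (lp (fun _ : LipBall X => ℝ) ∞) :=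
  (Submodule.span ℝ (Set.range (delta X))).topologicalClosure

/-- The same space, as a type. -/
def LipFree : Type _ := LipschitzFree X

noncomputable instance : NormedAddCommGroup (LipFree X) :=
  inferInstanceAs (NormedAddCommGroup (LipschitzFree X))

noncomputable instance : NormedSpace ℝ (LipFree X) :=
  inferInstanceAs (NormedSpace ℝ (LipschitzFree X))

instance : CompleteSpace (LipschitzFree X) :=
  (Submodule.isClosed_topologicalClosure _).completeSpace_coe

instance : CompleteSpace (LipFree X) :=
  inferInstanceAs (CompleteSpace (LipschitzFree X))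

end Defs

section Basic

variable {X : Type*} [NormedAddCommGroup X]

/-- The evaluation at `x`, as an element of the free space. -/
noncomputable def dl (x : X) : LipFree X :=
  ⟨delta X x, Submodule.le_topologicalClosure _ (Submodule.subset_span ⟨x, rfl⟩)⟩

/-- The inclusion into the space of bounded functions on `LipBall X`. -/
noncomputable def incl : LipFree X →L[ℝ] lp (fun _ : LipBall X => ℝ) ∞ := (LipschitzFree X).subtypeL

theorem incl_dl (x : X) : incl (dl x) = delta X x := rfl

theorem norm_incl (m : LipFree X) : ‖incl m‖ = ‖m‖ := rfl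

theorem incl_injective : Function.Injective (incl : LipFree X → _) := Subtype.val_injective

theorem dl_zero : dl (0 : X) = 0 := by
  apply incl_injective
  rw [map_zero, incl_dl]
  apply lp.ext
  funext f
  exact f.2.2

theorem norm_dl_sub_le (x y : X) : ‖dl x - dl y‖ ≤ ‖x - y‖ := by
  rw [← norm_incl, map_sub, incl_dl, incl_dl]
  refine lp.norm_le_of_forall_le (norm_nonneg _) fun f => ?_
  show ‖f.1 x - f.1 y‖ ≤ _
  have h := f.2.1.dist_le_mul x y
  rwa [NNReal.coe_one, one_mul, dist_eq_norm, dist_eq_norm] at h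

theorem norm_dl_le (x : X) : ‖dl x‖ ≤ ‖x‖ := by
  have h := norm_dl_sub_le x 0
  rwa [dl_zero, sub_zero, sub_zero] at h

/-- Finite linear combinations of evaluations. -/
noncomputable def comb : (X →₀ ℝ) →ₗ[ℝ] LipFree X := Finsupp.linearCombination ℝ dl

theorem comb_single (x : X) (c : ℝ) : comb (Finsupp.single x c) = c • dl x :=
  Finsupp.linearCombination_single ℝ c x

theorem incl_comb (a : X →₀ ℝ) : incl (comb a) = Finsupp.linearCombination ℝ (delta X) a := by
  unfold comb
  rw [Finsupp.linearCombination_apply, Finsupp.linearCombination_apply, Finsupp.sum, Finsupp.sum,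
    map_sum]
  refine Finset.sum_congr rfl fun x _ => ?_
  rw [map_smul, incl_dl]

theorem comb_val_apply (a : X →₀ ℝ) (f : LipBall X) :
    (incl (comb a)) f = Finsupp.linearCombination ℝ f.1 a := by
  rw [incl_comb, Finsupp.linearCombination_apply, Finsupp.linearCombination_apply, Finsupp.sum,
    Finsupp.sum, lp.coeFn_sum, Finset.sum_apply]
  rfl

theorem denseRange_comb : DenseRange (comb : (X →₀ ℝ) →ₗ[ℝ] LipFree X) := by
  intro m
  rw [Metric.mem_closure_iff]
  intro ε hε
  have hm : m.1 ∈ closure ((Submodule.span ℝ (Set.range (delta X)) :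
    Submodule ℝ (lp (fun _ : LipBall X => ℝ) ∞)) : Set (lp (fun _ : LipBall X => ℝ) ∞)) := m.2
  rw [Metric.mem_closure_iff] at hm
  obtain ⟨s, hs, hms⟩ := hm ε hε
  obtain ⟨a, ha⟩ := Finsupp.mem_span_range_iff_exists_finsupp.1 hs
  refine ⟨comb a, ⟨a, rfl⟩, ?_⟩
  have h : incl (comb a) = s := by
    rw [← ha, incl_comb, Finsupp.linearCombination_apply]
  show dist m.1 (incl (comb a)) < ε
  rw [h]
  exact hms

variable {V : Type*} [NormedAddCommGroup V] [NormedSpace ℝ V]

theorem norm_linearCombination_le {h : X → V} {K : ℝ≥0} (hK : LipschitzWith K h) (h0 : h 0 = 0)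
    (a : X →₀ ℝ) : ‖Finsupp.linearCombination ℝ h a‖ ≤ K * ‖comb a‖ := by
  obtain ⟨φ, hφ1, hφ⟩ := exists_dual_vector'' ℝ (Finsupp.linearCombination ℝ h a)
  have hL : LipschitzWith K (fun x => φ (h x)) := by
    have h1 : LipschitzWith (‖φ‖₊ * K) (fun x => φ (h x)) := φ.lipschitz.comp hK
    refine h1.weaken ?_
    have h2 : ‖φ‖₊ ≤ 1 := hφ1
    calc ‖φ‖₊ * K ≤ 1 * K := by gcongr
      _ = K := one_mul K
  have h3 : φ (Finsupp.linearCombination ℝ h a) =
      Finsupp.linearCombination ℝ (fun x => φ (h x)) a := by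
    rw [Finsupp.linearCombination_apply, Finsupp.linearCombination_apply, Finsupp.sum,
      Finsupp.sum, map_sum]
    refine Finset.sum_congr rfl fun x _ => ?_
    rw [map_smul]
  have h4 : ‖Finsupp.linearCombination ℝ h a‖ =
      Finsupp.linearCombination ℝ (fun x => φ (h x)) a := by
    rw [← h3, hφ]
    rfl
  rcases eq_or_ne K 0 with hK0 | hK0
  · have h5 : ∀ x, h x = 0 := by
      intro x
      have := hK.dist_le_mul x 0
      rw [hK0, NNReal.coe_zero, zero_mul, h0, dist_zero_right] at this
      exact norm_le_zero_iff.1 this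
    have h6 : Finsupp.linearCombination ℝ h a = 0 := by
      rw [Finsupp.linearCombination_apply, Finsupp.sum]
      exact Finset.sum_eq_zero fun x _ => by rw [h5, smul_zero]
    rw [h6, norm_zero]
    positivity
  · have hKpos : 0 < (K : ℝ) := by
      have := pos_iff_ne_zero.2 hK0
      exact_mod_cast this
    let f : LipBall X := ⟨fun x => (K : ℝ)⁻¹ * φ (h x), by
      apply LipschitzWith.of_dist_le_mul
      intro x y
      have h5 := hL.dist_le_mul x y
      rw [NNReal.coe_one, one_mul, Real.dist_eq, ← mul_sub, abs_mul, abs_of_pos (inv_pos.2 hKpos),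
        inv_mul_le_iff₀ hKpos]
      rwa [Real.dist_eq] at h5, by
      show (K : ℝ)⁻¹ * φ (h 0) = 0
      rw [h0, map_zero, mul_zero]⟩
    have h5 := lp.norm_apply_le_norm (by simp) (incl (comb a)) f
    rw [comb_val_apply, norm_incl] at h5
    have h6 : Finsupp.linearCombination ℝ f.1 a =
        (K : ℝ)⁻¹ * Finsupp.linearCombination ℝ (fun x => φ (h x)) a := by
      rw [Finsupp.linearCombination_apply, Finsupp.linearCombination_apply, Finsupp.sum,
        Finsupp.sum, Finset.mul_sum]
      refine Finset.sum_congr rfl fun x _ => ?_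
      show a x * ((K : ℝ)⁻¹ * φ (h x)) = (K : ℝ)⁻¹ * (a x * φ (h x))
      ring
    rw [h6, ← h4, norm_mul, norm_norm, Real.norm_eq_abs, abs_of_pos (inv_pos.2 hKpos),
      inv_mul_le_iff₀ hKpos] at h5
    exact h5

/-- The linear extension of a Lipschitz map. -/
noncomputable def lift [CompleteSpace V] (h : X → V) : LipFree X →L[ℝ] V :=
  (Finsupp.linearCombination ℝ h).extendOfNorm comb

theorem lift_dl [CompleteSpace V] {h : X → V} {K : ℝ≥0} (hK : LipschitzWith K h) (h0 : h 0 = 0)
    (x : X) : lift h (dl x) = h x := by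
  have h1 := LinearMap.extendOfNorm_eq (f := Finsupp.linearCombination ℝ h) denseRange_comb
    ⟨K, norm_linearCombination_le hK h0⟩ (Finsupp.single x 1)
  rw [comb_single, one_smul, Finsupp.linearCombination_single, one_smul] at h1
  exact h1

theorem norm_lift_le [CompleteSpace V] {h : X → V} {K : ℝ≥0} (hK : LipschitzWith K h)
    (h0 : h 0 = 0) (m : LipFree X) : ‖lift h m‖ ≤ K * ‖m‖ :=
  LinearMap.norm_extendOfNorm_apply_le (f := Finsupp.linearCombination ℝ h) denseRange_comb K
    (norm_linearCombination_le hK h0) m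

theorem lipFree_ext {A B : LipFree X →L[ℝ] V} (h : ∀ x, A (dl x) = B (dl x)) : A = B := by
  have h1 : ∀ a : X →₀ ℝ, A (comb a) = B (comb a) := by
    intro a
    unfold comb
    rw [Finsupp.linearCombination_apply, Finsupp.sum, map_sum, map_sum]
    refine Finset.sum_congr rfl fun x _ => ?_
    rw [map_smul, map_smul, h]
  ext m
  exact denseRange_comb.induction_on (p := fun m => A m = B m) m
    (isClosed_eq A.continuous B.continuous) h1

end Basic

end Pool.Agent.H36.MR
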