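import Mathlib
import Pool.Agent.H36.MR.Free
import Pool.Agent.H23.Ell1

/-!
# The Lipschitz-free space of a Banach space is isomorphic to its `ℓ₁`-sum
-/

open Set Filter Topology
open scoped NNReal ENNReal

namespace Pool.Agent.H36.MR

open Pool.Agent.H23

/-! ### Tools for `ℓ₁`-sums -/

section Sums

variable {V : Type*} [NormedAddCommGroup V] [NormedSpace ℝ V]

omit [NormedSpace ℝ V] in
/-- Families of Lipschitz maps with disjoint supports. -/
theorem exists_family {X : Type*} [NormedAddCommGroup X] (G : ℕ → X → V) (C : ℝ≥0)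
    (hG : ∀ n x y, ‖G n x - G n y‖ ≤ C * ‖x - y‖) (supp : X → Finset ℕ)
    (hcard : ∀ x, (supp x).card ≤ 2) (hsupp : ∀ x n, n ∉ supp x → G n x = 0) :
    ∃ g : X → lp (fun _ : ℕ => V) 1, (∀ x n, g x n = G n x) ∧ LipschitzWith (4 * C) g := by
  have hmem : ∀ x, Memℓp (fun n => G n x) 1 := by
    intro x
    apply memℓp_gen
    simp only [ENNReal.toReal_one, Real.rpow_one]
    refine summable_of_ne_finset_zero (s := supp x) fun n hn => ?_
    rw [hsupp x n hn, norm_zero]
  refine ⟨fun x => ⟨fun n => G n x, hmem x⟩, fun _ _ => rfl, ?_⟩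
  apply LipschitzWith.of_dist_le_mul
  intro x y
  rw [dist_eq_norm, dist_eq_norm, Ell1.norm_eq]
  have h1 : ∑' n, ‖((⟨fun n => G n x, hmem x⟩ : lp (fun _ : ℕ => V) 1) -
      (⟨fun n => G n y, hmem y⟩ : lp (fun _ : ℕ => V) 1)) n‖ =
      ∑ n ∈ supp x ∪ supp y, ‖G n x - G n y‖ := by
    refine tsum_eq_sum fun n hn => ?_
    rw [Finset.mem_union, not_or] at hn
    show ‖G n x - G n y‖ = 0
    rw [hsupp x n hn.1, hsupp y n hn.2, sub_zero, norm_zero]
  rw [h1]
  have h2 : ∑ n ∈ supp x ∪ supp y, ‖G n x - G n y‖ ≤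
      ((supp x ∪ supp y).card : ℝ) * (C * ‖x - y‖) := by
    rw [← nsmul_eq_mul]
    exact Finset.sum_le_card_nsmul _ _ _ fun n _ => hG n x y
  refine h2.trans ?_
  have h3 : ((supp x ∪ supp y).card : ℝ) ≤ 4 := by
    have h4 := Finset.card_union_le (supp x) (supp y)
    have h5 := hcard x
    have h6 := hcard y
    have : (supp x ∪ supp y).card ≤ 4 := by omega
    exact_mod_cast this
  have h7 : 0 ≤ (C : ℝ) * ‖x - y‖ := by positivity
  calc ((supp x ∪ supp y).card : ℝ) * (C * ‖x - y‖) ≤ 4 * (C * ‖x - y‖) := by gcongr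
    _ = ((4 * C : ℝ≥0) : ℝ) * ‖x - y‖ := by push_cast; ring

/-- The sum of a family of contractions. -/
theorem exists_sumOp {W F : Type*} [NormedAddCommGroup W] [NormedSpace ℝ W]
    [NormedAddCommGroup F] [NormedSpace ℝ F] [CompleteSpace F] (A : ℕ → W →L[ℝ] F)
    (hA : ∀ n w, ‖A n w‖ ≤ ‖w‖) :
    ∃ S : lp (fun _ : ℕ => W) 1 →L[ℝ] F, ∀ μ, HasSum (fun n => A n (μ n)) (S μ) := by
  have hs : ∀ μ : lp (fun _ : ℕ => W) 1, Summable fun n => A n (μ n) := fun μ =>
    Summable.of_norm_bounded (Ell1.summable μ) fun n => hA n (μ n)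
  refine ⟨LinearMap.mkContinuous
    { toFun := fun μ => ∑' n, A n (μ n)
      map_add' := by
        intro μ ν
        rw [← (hs μ).tsum_add (hs ν)]
        congr 1
        funext n
        rw [lp.coeFn_add, Pi.add_apply, map_add]
      map_smul' := by
        intro c μ
        rw [RingHom.id_apply, ← (hs μ).tsum_const_smul]
        congr 1
        funext n
        rw [lp.coeFn_smul, Pi.smul_apply, map_smul] } 1 (by
    intro μ
    rw [one_mul, Ell1.norm_eq]
    exact tsum_of_norm_bounded (Ell1.summable μ).hasSum fun n => hA n (μ n)), fun μ => ?_⟩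
  exact (hs μ).hasSum

/-- `ℓ₁(ℓ₁(W)) ≅ ℓ₁(W)`. -/
theorem nonempty_flatEquiv' (W : Type*) [NormedAddCommGroup W] [NormedSpace ℝ W]
    [CompleteSpace W] :
    Nonempty (lp (fun _ : ℕ => W) 1 ≃L[ℝ] lp (fun _ : ℕ => lp (fun _ : ℕ => W) 1) 1) := by
  have key : ∀ x : lp (fun _ : ℕ => lp (fun _ : ℕ => W) 1) 1,
      HasSum (fun n : ℕ => ‖x (Nat.unpair n).1 (Nat.unpair n).2‖) ‖x‖ := by
    intro x
    have h1 : Summable (fun q : ℕ × ℕ => ‖x q.1 q.2‖) := by
      rw [summable_prod_of_nonneg (fun q => norm_nonneg _)]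
      refine ⟨fun i => Ell1.summable (x i), ?_⟩
      have h2 : (fun i => ∑' j, ‖x i j‖) = fun i => ‖x i‖ := by
        funext i
        rw [Ell1.norm_eq (x i)]
      rw [h2]
      exact Ell1.summable x
    have h3 : ∑' q : ℕ × ℕ, ‖x q.1 q.2‖ = ‖x‖ := by
      rw [h1.tsum_prod, Ell1.norm_eq x]
      congr 1
      funext i
      rw [Ell1.norm_eq (x i)]
    have h4 : HasSum (fun q : ℕ × ℕ => ‖x q.1 q.2‖) ‖x‖ := h3 ▸ h1.hasSum
    exact (Nat.pairEquiv.symm.hasSum_iff (f := fun q : ℕ × ℕ => ‖x q.1 q.2‖)).2 h4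
  let flat : lp (fun _ : ℕ => lp (fun _ : ℕ => W) 1) 1 →L[ℝ] lp (fun _ : ℕ => W) 1 :=
    LinearMap.mkContinuous
    { toFun := fun x => ⟨fun n => x (Nat.unpair n).1 (Nat.unpair n).2, by
        apply memℓp_gen
        simp only [ENNReal.toReal_one, Real.rpow_one]
        exact (key x).summable⟩
      map_add' := by
        intro x y
        apply lp.ext
        funext n
        show (x + y) (Nat.unpair n).1 (Nat.unpair n).2 = _
        rw [lp.coeFn_add, Pi.add_apply, lp.coeFn_add, Pi.add_apply]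
        rfl
      map_smul' := by
        intro c x
        apply lp.ext
        funext n
        show (c • x) (Nat.unpair n).1 (Nat.unpair n).2 = _
        rw [lp.coeFn_smul, Pi.smul_apply, lp.coeFn_smul, Pi.smul_apply]
        rfl }
    1 (by
      intro x
      rw [one_mul, Ell1.norm_eq]
      exact (key x).tsum_eq.le)
  have hflat : ∀ x n, flat x n = x (Nat.unpair n).1 (Nat.unpair n).2 := fun _ _ => rfl
  have hinj : Function.Injective flat := by
    intro x y hxy
    apply lp.ext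
    funext i
    apply lp.ext
    funext j
    have h1 := hflat x (Nat.pair i j)
    have h2 := hflat y (Nat.pair i j)
    rw [Nat.unpair_pair] at h1 h2
    rw [hxy] at h1
    exact h1.symm.trans h2
  have hsurj : Function.Surjective flat := by
    intro y
    have h0 : Summable (fun q : ℕ × ℕ => ‖y (Nat.pair q.1 q.2)‖) :=
      (Nat.pairEquiv.summable_iff (f := fun n : ℕ => ‖y n‖)).2 (Ell1.summable y)
    have h1 := (summable_prod_of_nonneg (fun q => norm_nonneg _)).1 h0
    let r : ℕ → lp (fun _ : ℕ => W) 1 := fun i => ⟨fun j => y (Nat.pair i j), by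
      apply memℓp_gen
      simp only [ENNReal.toReal_one, Real.rpow_one]
      exact h1.1 i⟩
    have hr : ∀ i, ‖r i‖ = ∑' j, ‖y (Nat.pair i j)‖ := fun i => Ell1.norm_eq (r i)
    refine ⟨⟨r, ?_⟩, ?_⟩
    · apply memℓp_gen
      simp only [ENNReal.toReal_one, Real.rpow_one]
      have h2 : (fun i => ‖r i‖) = fun i => ∑' j, ‖y (Nat.pair i j)‖ := funext hr
      rw [h2]
      exact h1.2
    · apply lp.ext
      funext n
      rw [hflat]
      show y (Nat.pair (Nat.unpair n).1 (Nat.unpair n).2) = y n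
      rw [Nat.pair_unpair]
  exact (Ell1.exists_equiv_of_bijective flat hinj hsurj).map ContinuousLinearEquiv.symm

end Sums

end Pool.Agent.H36.MR
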