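import Mathlib
import Pool.Agent.H36.MR.Free2

/-!
# The Lipschitz-free space of a Banach space is isomorphic to its `ℓ₁`-sum, II

The decomposition over annuli and the embedding by far away balls (N. Kalton, P. Kaufmann).
-/

open Set Filter Topology
open scoped NNReal ENNReal

namespace Pool.Agent.H36.MR

open Pool.Agent.H23

section Ball

variable (X : Type*) [NormedAddCommGroup X] [NormedSpace ℝ X]

/-- The closed linear span of the evaluations at points of the unit ball. -/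
noncomputable def WB : Submodule ℝ (LipFree X) :=
  (Submodule.span ℝ (Set.range fun x : X => dl (rad x))).topologicalClosure

instance : CompleteSpace (WB X) :=
  (Submodule.isClosed_topologicalClosure _).completeSpace_coe

variable {X}

/-- The evaluation at the retraction of `x` onto the unit ball. -/
noncomputable def dW (x : X) : WB X :=
  ⟨dl (rad x), Submodule.le_topologicalClosure _ (Submodule.subset_span ⟨x, rfl⟩)⟩

theorem rad_zero : rad (0 : X) = 0 := rad_of_norm_le (by rw [norm_zero]; norm_num)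

theorem rad_rad (x : X) : rad (rad x) = rad x := rad_of_norm_le (norm_rad_le x)

theorem dW_zero : dW (0 : X) = 0 := by
  apply Subtype.ext
  show dl (rad (0 : X)) = 0
  rw [rad_zero, dl_zero]

theorem dW_rad (x : X) : dW (rad x) = dW x := by
  apply Subtype.ext
  show dl (rad (rad x)) = dl (rad x)
  rw [rad_rad]

theorem norm_dW_le (x : X) : ‖dW x‖ ≤ 1 := (norm_dl_le (rad x)).trans (norm_rad_le x)

theorem norm_dW_sub_le (x y : X) : ‖dW x - dW y‖ ≤ 2 * ‖x - y‖ :=
  (norm_dl_sub_le (rad x) (rad y)).trans (norm_rad_sub_le x y)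

theorem wb_ext {V : Type*} [NormedAddCommGroup V] [NormedSpace ℝ V] {A B : WB X →L[ℝ] V}
    (h : ∀ x, A (dW x) = B (dW x)) : A = B := by
  let E : Submodule ℝ (WB X) := LinearMap.eqLocus (A : WB X →ₗ[ℝ] V) (B : WB X →ₗ[ℝ] V)
  have hE : IsClosed (E : Set (WB X)) := isClosed_eq A.continuous B.continuous
  have hWc : IsClosed ((WB X : Submodule ℝ (LipFree X)) : Set (LipFree X)) :=
    Submodule.isClosed_topologicalClosure _
  have hE' : IsClosed ((E.map (WB X).subtype : Submodule ℝ (LipFree X)) : Set (LipFree X)) := by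
    rw [Submodule.map_coe]
    exact hWc.isClosedEmbedding_subtypeVal.isClosedMap _ hE
  have h1 : WB X ≤ E.map (WB X).subtype := by
    refine Submodule.topologicalClosure_minimal _ (Submodule.span_le.2 ?_) hE'
    rintro _ ⟨x, rfl⟩
    exact ⟨dW x, h x, rfl⟩
  ext m
  obtain ⟨m', hm', hmm⟩ := h1 m.2
  have h2 : m' = m := Subtype.ext hmm
  rw [← h2]
  exact hm'

/-! ### Cut-off functions -/

/-- A function which is `1` on `[0, 2 ^ k]` and `0` beyond `2 ^ (k + 1)`. -/
noncomputable def cut (k : ℤ) (t : ℝ) : ℝ := max 0 (min 1 (2 - t / 2 ^ k))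

theorem cut_nonneg (k : ℤ) (t : ℝ) : 0 ≤ cut k t := le_max_left _ _

theorem cut_le_one (k : ℤ) (t : ℝ) : cut k t ≤ 1 := max_le (by norm_num) (min_le_left _ _)

theorem cut_eq_one {k : ℤ} {t : ℝ} (h : t ≤ 2 ^ k) : cut k t = 1 := by
  have h1 : t / 2 ^ k ≤ 1 := (div_le_one (by positivity)).2 h
  unfold cut
  rw [min_eq_left (by linarith), max_eq_right (by norm_num)]

theorem cut_eq_zero {k : ℤ} {t : ℝ} (h : 2 ^ (k + 1) ≤ t) : cut k t = 0 := by
  have h2 : (2 : ℝ) ^ (k + 1) = 2 * 2 ^ k := by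
    rw [zpow_add_one₀ (by norm_num), mul_comm]
  have h1 : 2 ≤ t / 2 ^ k := by
    rw [le_div_iff₀ (by positivity)]
    linarith
  unfold cut
  rw [max_eq_left]
  exact (min_le_right _ _).trans (by linarith)

theorem abs_cut_sub_le (k : ℤ) (t s : ℝ) : |cut k t - cut k s| ≤ |t - s| / 2 ^ k := by
  unfold cut
  have h1 := abs_max_sub_max_le_max 0 (min 1 (2 - t / 2 ^ k)) 0 (min 1 (2 - s / 2 ^ k))
  have h2 := abs_min_sub_min_le_max 1 (2 - t / 2 ^ k) 1 (2 - s / 2 ^ k)
  have h3 : |(2 - t / 2 ^ k) - (2 - s / 2 ^ k)| = |t - s| / 2 ^ k := by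
    have h4 : (2 - t / 2 ^ k) - (2 - s / 2 ^ k) = -((t - s) / 2 ^ k) := by ring
    rw [h4, abs_neg, abs_div, abs_of_pos (by positivity : (0 : ℝ) < 2 ^ k)]
  have h0 : 0 ≤ |t - s| / (2 : ℝ) ^ k := by positivity
  rw [sub_self, abs_zero] at h1 h2
  rw [h3, max_eq_right h0] at h2
  exact h1.trans (max_le h0 h2)

/-- The partition of unity over annuli. -/
noncomputable def hat (k : ℤ) (t : ℝ) : ℝ := cut k t - cut (k - 1) t

theorem abs_hat_le (k : ℤ) (t : ℝ) : |hat k t| ≤ 1 := by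
  unfold hat
  rw [abs_le]
  have h1 := cut_nonneg k t
  have h2 := cut_le_one k t
  have h3 := cut_nonneg (k - 1) t
  have h4 := cut_le_one (k - 1) t
  constructor <;> linarith

theorem abs_hat_sub_le (k : ℤ) (t s : ℝ) : |hat k t - hat k s| ≤ 3 * (|t - s| / 2 ^ k) := by
  unfold hat
  have h1 := abs_cut_sub_le k t s
  have h2 := abs_cut_sub_le (k - 1) t s
  have h3 : |t - s| / (2 : ℝ) ^ (k - 1) = 2 * (|t - s| / 2 ^ k) := by
    rw [zpow_sub_one₀ (by norm_num)]
    field_simp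
  rw [h3] at h2
  have h4 : (cut k t - cut (k - 1) t) - (cut k s - cut (k - 1) s) =
    (cut k t - cut k s) - (cut (k - 1) t - cut (k - 1) s) := by ring
  rw [h4]
  have h5 := abs_sub (cut k t - cut k s) (cut (k - 1) t - cut (k - 1) s)
  linarith

theorem hat_eq_zero {k : ℤ} {t : ℝ} (ht : 0 < t) (h1 : k ≠ Int.log 2 t)
    (h2 : k ≠ Int.log 2 t + 1) : hat k t = 0 := by
  have h3 : (2 : ℝ) ^ Int.log 2 t ≤ t := by
    have := Int.zpow_log_le_self (b := 2) (by norm_num) ht
    exact_mod_cast this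
  have h4 : t < (2 : ℝ) ^ (Int.log 2 t + 1) := by
    have := Int.lt_zpow_succ_log_self (b := 2) (by norm_num) t
    exact_mod_cast this
  unfold hat
  rcases lt_or_ge k (Int.log 2 t) with h | h
  · rw [cut_eq_zero, cut_eq_zero, sub_zero]
    · refine le_trans (zpow_le_zpow_right₀ (by norm_num) (by omega)) h3
    · refine le_trans (zpow_le_zpow_right₀ (by norm_num) (by omega)) h3
  · rw [cut_eq_one, cut_eq_one, sub_self]
    · refine h4.le.trans (zpow_le_zpow_right₀ (by norm_num) (by omega))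
    · refine h4.le.trans (zpow_le_zpow_right₀ (by norm_num) (by omega))

theorem hat_add_hat {t : ℝ} (ht : 0 < t) :
    hat (Int.log 2 t) t + hat (Int.log 2 t + 1) t = 1 := by
  have h3 : (2 : ℝ) ^ Int.log 2 t ≤ t := by
    have := Int.zpow_log_le_self (b := 2) (by norm_num) ht
    exact_mod_cast this
  have h4 : t < (2 : ℝ) ^ (Int.log 2 t + 1) := by
    have := Int.lt_zpow_succ_log_self (b := 2) (by norm_num) t
    exact_mod_cast this
  unfold hat
  rw [add_sub_cancel_right, cut_eq_one h4.le, cut_eq_zero (k := Int.log 2 t - 1)]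
  · ring
  · rw [sub_add_cancel]
    exact h3

theorem hat_zero (k : ℤ) : hat k 0 = 0 := by
  unfold hat
  rw [cut_eq_one (by positivity), cut_eq_one (by positivity), sub_self]

/-! ### The free space is complemented in the `ℓ₁`-sum -/

/-- The components of the decomposition over annuli. -/
noncomputable def annul (k : ℤ) (x : X) : WB X :=
  (hat k ‖x‖ * 2 ^ (k + 1)) • dW (((2 : ℝ) ^ (k + 1))⁻¹ • x)

theorem norm_annul_sub_le (k : ℤ) (x y : X) : ‖annul k x - annul k y‖ ≤ 8 * ‖x - y‖ := by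
  set c : ℝ := (2 : ℝ) ^ (k + 1) with hc
  have hc0 : 0 < c := by positivity
  have hc2 : c = 2 * 2 ^ k := by
    rw [hc, zpow_add_one₀ (by norm_num), mul_comm]
  have e1 : annul k x - annul k y =
      (hat k ‖x‖ * c) • (dW (c⁻¹ • x) - dW (c⁻¹ • y)) +
        ((hat k ‖x‖ - hat k ‖y‖) * c) • dW (c⁻¹ • y) := by
    show (hat k ‖x‖ * c) • dW (c⁻¹ • x) - (hat k ‖y‖ * c) • dW (c⁻¹ • y) = _
    module
  rw [e1]
  have h1 : ‖(hat k ‖x‖ * c) • (dW (c⁻¹ • x) - dW (c⁻¹ • y))‖ ≤ 2 * ‖x - y‖ := by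
    rw [norm_smul, norm_mul, Real.norm_eq_abs, Real.norm_eq_abs, abs_of_pos hc0]
    have h2 := norm_dW_sub_le (c⁻¹ • x) (c⁻¹ • y)
    rw [← smul_sub, norm_smul, norm_inv, Real.norm_eq_abs, abs_of_pos hc0] at h2
    calc |hat k ‖x‖| * c * ‖dW (c⁻¹ • x) - dW (c⁻¹ • y)‖
        ≤ 1 * c * (2 * (c⁻¹ * ‖x - y‖)) := by
          gcongr
          exact abs_hat_le k _
      _ = 2 * ‖x - y‖ * (c * c⁻¹) := by ring
      _ = 2 * ‖x - y‖ := by rw [mul_inv_cancel₀ hc0.ne', mul_one]
  have h3 : ‖((hat k ‖x‖ - hat k ‖y‖) * c) • dW (c⁻¹ • y)‖ ≤ 6 * ‖x - y‖ := by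
    rw [norm_smul, norm_mul, Real.norm_eq_abs, Real.norm_eq_abs, abs_of_pos hc0]
    have h4 := abs_hat_sub_le k ‖x‖ ‖y‖
    have h5 := abs_norm_sub_norm_le x y
    have h6 := norm_dW_le (c⁻¹ • y)
    calc |hat k ‖x‖ - hat k ‖y‖| * c * ‖dW (c⁻¹ • y)‖
        ≤ (3 * (‖x - y‖ / 2 ^ k)) * c * 1 := by
          gcongr
          exact h4.trans (by gcongr)
      _ = 6 * ‖x - y‖ := by
          rw [hc2]
          field_simp
          ring
  calc _ ≤ 2 * ‖x - y‖ + 6 * ‖x - y‖ := (norm_add_le _ _).trans (add_le_add h1 h3)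
    _ = 8 * ‖x - y‖ := by ring

/-- The free space is complemented in the `ℓ₁`-sum of copies of the ball part. -/
theorem exists_annuli (X : Type*) [NormedAddCommGroup X] [NormedSpace ℝ X] :
    ∃ (T : LipFree X →L[ℝ] lp (fun _ : ℕ => WB X) 1)
      (S : lp (fun _ : ℕ => WB X) 1 →L[ℝ] LipFree X), ∀ m, S (T m) = m := by
  classical
  let ε : ℕ ≃ ℤ := Equiv.intEquivNat.symm
  have hannul0 : ∀ k : ℤ, annul k (0 : X) = 0 := by
    intro k
    show (hat k ‖(0 : X)‖ * 2 ^ (k + 1)) • dW _ = 0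
    rw [norm_zero, hat_zero, zero_mul, zero_smul]
  obtain ⟨g, hg, hgL⟩ := exists_family (V := WB X) (X := X) (fun n x => annul (ε n) x) 8
    (fun n x y => norm_annul_sub_le (ε n) x y)
    (fun x => if x = 0 then ∅ else {ε.symm (Int.log 2 ‖x‖), ε.symm (Int.log 2 ‖x‖ + 1)})
    (by
      intro x
      split_ifs
      · simp
      · exact Finset.card_le_two)
    (by
      intro x n hn
      by_cases hx : x = 0
      · rw [hx]
        exact hannul0 _
      · rw [if_neg hx, Finset.mem_insert, Finset.mem_singleton, not_or] at hn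
        show (hat (ε n) ‖x‖ * 2 ^ (ε n + 1)) • dW _ = 0
        rw [hat_eq_zero (norm_pos_iff.2 hx), zero_mul, zero_smul]
        · intro h
          exact hn.1 (by rw [← h, ε.symm_apply_apply])
        · intro h
          exact hn.2 (by rw [← h, ε.symm_apply_apply]))
  have hg0 : g 0 = 0 := by
    apply lp.ext
    funext n
    rw [hg]
    exact hannul0 _
  -- the operators back
  let h : ℕ → X → LipFree X := fun n x =>
    ((2 : ℝ) ^ (ε n + 1))⁻¹ • dl ((2 : ℝ) ^ (ε n + 1) • x)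
  have hh0 : ∀ n, h n 0 = 0 := by
    intro n
    show ((2 : ℝ) ^ (ε n + 1))⁻¹ • dl ((2 : ℝ) ^ (ε n + 1) • (0 : X)) = 0
    rw [smul_zero, dl_zero, smul_zero]
  have hhL : ∀ n, LipschitzWith 1 (h n) := by
    intro n
    apply LipschitzWith.of_dist_le_mul
    intro x y
    have hc0 : (0 : ℝ) < 2 ^ (ε n + 1) := by positivity
    rw [dist_eq_norm, dist_eq_norm, NNReal.coe_one, one_mul]
    show ‖((2 : ℝ) ^ (ε n + 1))⁻¹ • dl ((2 : ℝ) ^ (ε n + 1) • x) -
      ((2 : ℝ) ^ (ε n + 1))⁻¹ • dl ((2 : ℝ) ^ (ε n + 1) • y)‖ ≤ _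
    rw [← smul_sub, norm_smul, norm_inv, Real.norm_eq_abs, abs_of_pos hc0,
      inv_mul_le_iff₀ hc0]
    refine (norm_dl_sub_le _ _).trans ?_
    rw [← smul_sub, norm_smul, Real.norm_eq_abs, abs_of_pos hc0]
  let A : ℕ → WB X →L[ℝ] LipFree X := fun n => (lift (h n)).comp (WB X).subtypeL
  obtain ⟨S, hS⟩ := exists_sumOp A (fun n w => by
    have h1 := norm_lift_le (hhL n) (hh0 n) w.1
    rw [NNReal.coe_one, one_mul] at h1
    exact h1)
  refine ⟨lift g, S, ?_⟩
  have key : S.comp (lift g) = ContinuousLinearMap.id ℝ (LipFree X) := by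
    refine lipFree_ext fun x => ?_
    show S (lift g (dl x)) = dl x
    rw [lift_dl hgL hg0]
    by_cases hx : x = 0
    · rw [hx, hg0, map_zero, dl_zero]
    have hx0 : 0 < ‖x‖ := norm_pos_iff.2 hx
    set K : ℤ := Int.log 2 ‖x‖ with hK
    have hne : ε.symm K ≠ ε.symm (K + 1) := by
      intro h1
      have := ε.symm.injective h1
      omega
    have h1 : ∀ n, A n (g x n) = (hat (ε n) ‖x‖) • dl ((2 : ℝ) ^ (ε n + 1) •
        rad (((2 : ℝ) ^ (ε n + 1))⁻¹ • x)) := by
      intro n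
      have hc0 : (2 : ℝ) ^ (ε n + 1) ≠ 0 := by positivity
      rw [hg]
      show lift (h n) ((hat (ε n) ‖x‖ * 2 ^ (ε n + 1)) •
        dl (rad (((2 : ℝ) ^ (ε n + 1))⁻¹ • x))) = _
      rw [map_smul, lift_dl (hhL n) (hh0 n)]
      show (hat (ε n) ‖x‖ * 2 ^ (ε n + 1)) • (((2 : ℝ) ^ (ε n + 1))⁻¹ •
        dl ((2 : ℝ) ^ (ε n + 1) • rad (((2 : ℝ) ^ (ε n + 1))⁻¹ • x))) = _
      rw [smul_smul, mul_assoc, mul_inv_cancel₀ hc0, mul_one]
    have hlt : ‖x‖ < (2 : ℝ) ^ (K + 1) := by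
      have := Int.lt_zpow_succ_log_self (b := 2) (by norm_num) ‖x‖
      exact_mod_cast this
    have h2 : ∀ k : ℤ, K ≤ k → dl ((2 : ℝ) ^ (k + 1) • rad (((2 : ℝ) ^ (k + 1))⁻¹ • x)) =
        dl x := by
      intro k hk
      have hc0 : (0 : ℝ) < 2 ^ (k + 1) := by positivity
      have h3 : (2 : ℝ) ^ (K + 1) ≤ 2 ^ (k + 1) :=
        zpow_le_zpow_right₀ (by norm_num) (by omega)
      rw [rad_of_norm_le, smul_smul, mul_inv_cancel₀ hc0.ne', one_smul]
      rw [norm_smul, norm_inv, Real.norm_eq_abs, abs_of_pos hc0, inv_mul_le_iff₀ hc0, mul_one]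
      exact hlt.le.trans h3
    have h3 : HasSum (fun n => A n (g x n))
        (∑ n ∈ ({ε.symm K, ε.symm (K + 1)} : Finset ℕ), A n (g x n)) := by
      refine hasSum_sum_of_ne_finset_zero fun n hn => ?_
      rw [Finset.mem_insert, Finset.mem_singleton, not_or] at hn
      rw [h1, hat_eq_zero hx0, zero_smul]
      · intro h4
        exact hn.1 (by rw [hK, ← h4, ε.symm_apply_apply])
      · intro h4
        exact hn.2 (by rw [hK, ← h4, ε.symm_apply_apply])
    rw [(hS (g x)).unique h3, Finset.sum_pair hne, h1, h1, ε.apply_symm_apply,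
      ε.apply_symm_apply, h2 K le_rfl, h2 (K + 1) (by omega), ← add_smul, hK,
      hat_add_hat hx0, one_smul]
  intro m
  exact congrArg (fun B : LipFree X →L[ℝ] LipFree X => B m) key

end Ball

end Pool.Agent.H36.MR
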