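import Mathlib
import Pool.Agent.H36.MR.Free3

/-!
# The Lipschitz-free space of a Banach space is isomorphic to its `ℓ₁`-sum, III
-/

open Set Filter Topology
open scoped NNReal ENNReal

namespace Pool.Agent.H36.MR

open Pool.Agent.H23

section Far

variable {X : Type*} [NormedAddCommGroup X] [NormedSpace ℝ X]

/-- The part near the point `c`. -/
noncomputable def bump (c x : X) : WB X := cut 0 ‖x - c‖ • dW (x - c)

theorem bump_eq_zero {c x : X} (h : 2 ≤ ‖x - c‖) : bump c x = 0 := by
  unfold bump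
  rw [cut_eq_zero (by simpa using h), zero_smul]

theorem bump_of_le {c x : X} (h : ‖x - c‖ ≤ 1) : bump c x = dW (x - c) := by
  unfold bump
  rw [cut_eq_one (by simpa using h), one_smul]

theorem norm_bump_sub_le (c x y : X) : ‖bump c x - bump c y‖ ≤ 3 * ‖x - y‖ := by
  have e1 : bump c x - bump c y = cut 0 ‖x - c‖ • (dW (x - c) - dW (y - c)) +
      (cut 0 ‖x - c‖ - cut 0 ‖y - c‖) • dW (y - c) := by
    show cut 0 ‖x - c‖ • dW (x - c) - cut 0 ‖y - c‖ • dW (y - c) = _
    module
  have e2 : (x - c) - (y - c) = x - y := by abel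
  rw [e1]
  have h1 : ‖cut 0 ‖x - c‖ • (dW (x - c) - dW (y - c))‖ ≤ 2 * ‖x - y‖ := by
    rw [norm_smul, Real.norm_eq_abs, abs_of_nonneg (cut_nonneg _ _)]
    have h2 := norm_dW_sub_le (x - c) (y - c)
    rw [e2] at h2
    calc cut 0 ‖x - c‖ * ‖dW (x - c) - dW (y - c)‖ ≤ 1 * (2 * ‖x - y‖) := by
          gcongr
          exact cut_le_one _ _
      _ = 2 * ‖x - y‖ := one_mul _
  have h3 : ‖(cut 0 ‖x - c‖ - cut 0 ‖y - c‖) • dW (y - c)‖ ≤ 1 * ‖x - y‖ := by
    rw [norm_smul, Real.norm_eq_abs]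
    have h4 := abs_cut_sub_le 0 ‖x - c‖ ‖y - c‖
    have h5 := abs_norm_sub_norm_le (x - c) (y - c)
    rw [e2] at h5
    rw [zpow_zero, div_one] at h4
    calc |cut 0 ‖x - c‖ - cut 0 ‖y - c‖| * ‖dW (y - c)‖ ≤ ‖x - y‖ * 1 := by
          gcongr
          · exact h4.trans h5
          · exact norm_dW_le _
      _ = 1 * ‖x - y‖ := by ring
  calc _ ≤ 2 * ‖x - y‖ + 1 * ‖x - y‖ := (norm_add_le _ _).trans (add_le_add h1 h3)
    _ = 3 * ‖x - y‖ := by ring

/-- The `ℓ₁`-sum of copies of the ball part is complemented in the free space. -/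
theorem exists_far (X : Type*) [NormedAddCommGroup X] [NormedSpace ℝ X] [Nontrivial X] :
    ∃ (U : lp (fun _ : ℕ => WB X) 1 →L[ℝ] LipFree X)
      (V : LipFree X →L[ℝ] lp (fun _ : ℕ => WB X) 1), ∀ μ, V (U μ) = μ := by
  classical
  obtain ⟨e, he⟩ := NormedSpace.exists_lt_norm ℝ X 0
  obtain ⟨u, hu⟩ : ∃ u : X, ‖u‖ = 1 :=
    ⟨‖e‖⁻¹ • e, by rw [norm_smul, norm_inv, norm_norm, inv_mul_cancel₀ he.ne']⟩
  let c : ℕ → X := fun n => (6 * (n : ℝ)) • u
  have hc0 : c 0 = 0 := by
    show (6 * ((0 : ℕ) : ℝ)) • u = 0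
    rw [Nat.cast_zero, mul_zero, zero_smul]
  have hsep : ∀ n m, n ≠ m → 6 ≤ ‖c n - c m‖ := by
    intro n m hnm
    have h1 : c n - c m = (6 * ((n : ℝ) - m)) • u := by
      show (6 * (n : ℝ)) • u - (6 * (m : ℝ)) • u = _
      module
    rw [h1, norm_smul, hu, mul_one, Real.norm_eq_abs, abs_mul, abs_of_pos (by norm_num : (0:ℝ) < 6)]
    have h2 : (1 : ℝ) ≤ |(n : ℝ) - m| := by
      have h3 : (1 : ℤ) ≤ |(n : ℤ) - m| := Int.one_le_abs (sub_ne_zero.2 (by exact_mod_cast hnm))
      exact_mod_cast h3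
    linarith
  have huniq : ∀ x n m, ‖x - c n‖ < 2 → ‖x - c m‖ < 2 → n = m := by
    intro x n m hn hm
    by_contra hnm
    have h1 := hsep n m hnm
    have h2 : c n - c m = (x - c m) - (x - c n) := by abel
    have h3 := norm_sub_le (x - c m) (x - c n)
    rw [← h2] at h3
    linarith
  obtain ⟨g, hg, hgL⟩ := exists_family (V := WB X) (X := X) (fun n x => bump (c n) x) 3
    (fun n x y => norm_bump_sub_le (c n) x y)
    (fun x => if h : ∃ n, ‖x - c n‖ < 2 then {h.choose} else ∅)
    (by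
      intro x
      split_ifs
      · simp
      · simp)
    (by
      intro x n hn
      apply bump_eq_zero
      by_contra hlt
      push Not at hlt
      have hex : ∃ n, ‖x - c n‖ < 2 := ⟨n, hlt⟩
      rw [dif_pos hex, Finset.mem_singleton] at hn
      exact hn (huniq x n _ hlt hex.choose_spec))
  have hg0 : g 0 = 0 := by
    apply lp.ext
    funext n
    rw [hg]
    show bump (c n) 0 = 0
    rcases eq_or_ne n 0 with rfl | hn
    · rw [hc0, bump_of_le (by simp), sub_zero, dW_zero]
    · apply bump_eq_zero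
      have h1 := hsep 0 n hn.symm
      rw [hc0] at h1
      linarith
  let h : ℕ → X → LipFree X := fun n x => dl (c n + x) - dl (c n)
  have hh0 : ∀ n, h n 0 = 0 := by
    intro n
    show dl (c n + 0) - dl (c n) = 0
    rw [add_zero, sub_self]
  have hhL : ∀ n, LipschitzWith 1 (h n) := by
    intro n
    apply LipschitzWith.of_dist_le_mul
    intro x y
    rw [dist_eq_norm, dist_eq_norm, NNReal.coe_one, one_mul]
    have e1 : h n x - h n y = dl (c n + x) - dl (c n + y) := by
      show (dl (c n + x) - dl (c n)) - (dl (c n + y) - dl (c n)) = _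
      abel
    rw [e1]
    refine (norm_dl_sub_le _ _).trans (le_of_eq ?_)
    congr 1
    abel
  let A : ℕ → WB X →L[ℝ] LipFree X := fun n => (lift (h n)).comp (WB X).subtypeL
  obtain ⟨S, hS⟩ := exists_sumOp A (fun n w => by
    have h1 := norm_lift_le (hhL n) (hh0 n) w.1
    rw [NNReal.coe_one, one_mul] at h1
    exact h1)
  have hSs : ∀ n w, S (lp.single 1 n w) = A n w := by
    intro n w
    refine (hS (lp.single 1 n w)).unique ?_
    have h1 : A n w = A n ((lp.single 1 n w : lp (fun _ : ℕ => WB X) 1) n) := by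
      rw [lp.single_apply_self]
    rw [h1]
    refine hasSum_single n fun m hm => ?_
    rw [lp.single_apply_ne (E := fun _ : ℕ => WB X) 1 n w hm, map_zero]
  refine ⟨S, lift g, ?_⟩
  have key : (lift g).comp S = ContinuousLinearMap.id ℝ (lp (fun _ : ℕ => WB X) 1) := by
    refine lp.ext_continuousLinearMap (by simp) fun n => ?_
    refine wb_ext fun x => ?_
    show lift g (S (lp.single 1 n (dW x))) = lp.single 1 n (dW x)
    rw [hSs]
    have h1 : A n (dW x) = dl (c n + rad x) - dl (c n) := by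
      show lift (h n) (dl (rad x)) = _
      rw [lift_dl (hhL n) (hh0 n)]
    rw [h1, map_sub, lift_dl hgL hg0, lift_dl hgL hg0]
    apply lp.ext
    funext m
    rw [lp.coeFn_sub, Pi.sub_apply, hg, hg]
    have h2 := norm_rad_le x
    rcases eq_or_ne m n with rfl | hmn
    · rw [lp.single_apply_self]
      show bump (c m) (c m + rad x) - bump (c m) (c m) = dW x
      rw [bump_of_le, bump_of_le, add_sub_cancel_left, sub_self, dW_zero, sub_zero, dW_rad]
      · rw [sub_self, norm_zero]
        norm_num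
      · rw [add_sub_cancel_left]
        exact h2
    · rw [lp.single_apply_ne (E := fun _ : ℕ => WB X) 1 n (dW x) hmn]
      show bump (c m) (c n + rad x) - bump (c m) (c n) = 0
      have h3 := hsep n m hmn.symm
      rw [bump_eq_zero, bump_eq_zero, sub_zero]
      · linarith
      · have e1 : c n - c m = (c n + rad x - c m) - rad x := by abel
        have h4 := norm_sub_le (c n + rad x - c m) (rad x)
        rw [← e1] at h4
        linarith
  intro μ
  exact congrArg (fun B : lp (fun _ : ℕ => WB X) 1 →L[ℝ] lp (fun _ : ℕ => WB X) 1 => B μ) key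

/-- The coordinatewise extension of an isomorphism. -/
theorem nonempty_lp_congr {E F : Type*} [NormedAddCommGroup E] [NormedSpace ℝ E]
    [NormedAddCommGroup F] [NormedSpace ℝ F] (e : E ≃L[ℝ] F) :
    Nonempty (lp (fun _ : ℕ => E) 1 ≃L[ℝ] lp (fun _ : ℕ => F) 1) := by
  refine ⟨ContinuousLinearEquiv.equivOfInverse (mapLp 1 (e : E →L[ℝ] F))
    (mapLp 1 (e.symm : F →L[ℝ] E)) ?_ ?_⟩
  · intro x
    apply lp.ext
    funext n
    exact e.symm_apply_apply (x n)
  · intro x
    apply lp.ext
    funext n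
    exact e.apply_symm_apply (x n)

/-- The free space of a nonzero normed space is isomorphic to its `ℓ₁`-sum. -/
theorem nonempty_lipFree_equiv_lp (X : Type*) [NormedAddCommGroup X] [NormedSpace ℝ X]
    [Nontrivial X] : Nonempty (LipFree X ≃L[ℝ] lp (fun _ : ℕ => LipFree X) 1) := by
  obtain ⟨T, S, hST⟩ := exists_annuli X
  obtain ⟨U, V, hVU⟩ := exists_far X
  obtain ⟨e1⟩ := nonempty_equiv_of_complemented (p := 1) (by simp)
    (nonempty_flatEquiv' (WB X)) T S hST U V hVU
  obtain ⟨e2⟩ := nonempty_flatEquiv' (WB X)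
  obtain ⟨e3⟩ := nonempty_lp_congr e1
  exact ⟨e1.trans (e2.trans e3.symm)⟩

omit [NormedSpace ℝ X] in
/-- Functoriality of the free space. -/
theorem exists_push {Y : Type*} [NormedAddCommGroup Y] {f : X → Y} {K : ℝ≥0}
    (hf : LipschitzWith K f) (h0 : f 0 = 0) :
    ∃ T : LipFree X →L[ℝ] LipFree Y, ∀ x, T (dl x) = dl (f x) := by
  have h1 : LipschitzWith 1 (dl : Y → LipFree Y) := by
    apply LipschitzWith.of_dist_le_mul
    intro x y
    rw [dist_eq_norm, dist_eq_norm, NNReal.coe_one, one_mul]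
    exact norm_dl_sub_le x y
  have h2 : LipschitzWith (1 * K) (fun x => dl (f x)) := h1.comp hf
  refine ⟨lift fun x => dl (f x), fun x => lift_dl h2 ?_ x⟩
  rw [h0, dl_zero]

/-- Normed spaces which are Lipschitz retracts of each other have isomorphic free spaces. -/
theorem nonempty_lipFree_equiv {Y : Type*} [NormedAddCommGroup Y] [NormedSpace ℝ Y]
    [Nontrivial X] {i : Y → X} {r : X → Y} {a : X → Y} {b : Y → X} {K₁ K₂ K₃ K₄ : ℝ≥0}
    (hi : LipschitzWith K₁ i) (hr : LipschitzWith K₂ r) (hri : ∀ y, r (i y) = y)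
    (ha : LipschitzWith K₃ a) (hb : LipschitzWith K₄ b) (hba : ∀ x, b (a x) = x) :
    Nonempty (LipFree Y ≃L[ℝ] LipFree X) := by
  -- normalise
  obtain ⟨I, hI⟩ := exists_push (f := fun y => i y - i 0) (K := K₁) (by
    apply LipschitzWith.of_dist_le_mul
    intro x y
    rw [dist_sub_right]
    exact hi.dist_le_mul x y) (sub_self _)
  obtain ⟨R, hR⟩ := exists_push (f := fun x => r (x + i 0)) (K := K₂) (by
    apply LipschitzWith.of_dist_le_mul
    intro x y
    refine (hr.dist_le_mul _ _).trans (le_of_eq ?_)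
    rw [dist_add_right]) (by rw [zero_add, hri])
  obtain ⟨A, hA⟩ := exists_push (f := fun y => a y - a 0) (K := K₃) (by
    apply LipschitzWith.of_dist_le_mul
    intro x y
    rw [dist_sub_right]
    exact ha.dist_le_mul x y) (sub_self _)
  obtain ⟨B, hB⟩ := exists_push (f := fun x => b (x + a 0)) (K := K₄) (by
    apply LipschitzWith.of_dist_le_mul
    intro x y
    refine (hb.dist_le_mul _ _).trans (le_of_eq ?_)
    rw [dist_add_right]) (by rw [zero_add, hba])
  have hRI : R.comp I = ContinuousLinearMap.id ℝ (LipFree Y) := by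
    refine lipFree_ext fun y => ?_
    show R (I (dl y)) = dl y
    rw [hI, hR, sub_add_cancel, hri]
  have hBA : B.comp A = ContinuousLinearMap.id ℝ (LipFree X) := by
    refine lipFree_ext fun x => ?_
    show B (A (dl x)) = dl x
    rw [hA, hB, sub_add_cancel, hba]
  exact nonempty_equiv_of_complemented (p := 1) (by simp) (nonempty_lipFree_equiv_lp X) I R
    (fun y => congrArg (fun T : LipFree Y →L[ℝ] LipFree Y => T y) hRI) A B
    (fun x => congrArg (fun T : LipFree X →L[ℝ] LipFree X => T x) hBA)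

/-- The same statement for the spaces as submodules. -/
theorem nonempty_lipschitzFree_equiv {Y : Type*} [NormedAddCommGroup Y] [NormedSpace ℝ Y]
    [Nontrivial X] {i : Y → X} {r : X → Y} {a : X → Y} {b : Y → X} {K₁ K₂ K₃ K₄ : ℝ≥0}
    (hi : LipschitzWith K₁ i) (hr : LipschitzWith K₂ r) (hri : ∀ y, r (i y) = y)
    (ha : LipschitzWith K₃ a) (hb : LipschitzWith K₄ b) (hba : ∀ x, b (a x) = x) :
    Nonempty (LipschitzFree Y ≃L[ℝ] LipschitzFree X) :=
  nonempty_lipFree_equiv hi hr hri ha hb hba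

end Far

end Pool.Agent.H36.MR
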